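import Pool.Agent.GE.Poly
import Pool.Agent.NXL.Sem

set_option autoImplicit false

/-!
# A family of certificate questions is one system of linear equations
-/

namespace Pool.Agent.GE

open Finset Pool.Agent.PolyTime Pool.Agent.NXL Turing

/-! ### Certificates -/

/-- The number of the places of the label `a` with the unknown `(g, s)`. -/
def par (N a g s : ℕ) : ℕ :=
  ∑ c ∈ range 8, if eN N (a / KK) c = g ∧ (a % KK).testBit (24 * c + s) = true then 1 else 0

lemma natCast_one {n : ℕ} : ((n : ℕ) : ZMod 2) = 1 ↔ n % 2 = 1 := by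
  rw [ZMod.natCast_eq_one_iff_odd, Nat.odd_iff]

lemma natCast_zero {n : ℕ} : ((n : ℕ) : ZMod 2) = 0 ↔ n % 2 = 0 := by
  rw [ZMod.natCast_eq_zero_iff_even, Nat.even_iff]

lemma cert_zmod {N : ℕ} {x w : ℕ → Bool} : Cert N x w ↔
    (∀ a < N * N * KK, w a = true → x a = true) ∧ ∑ a ∈ range (N * N * KK), bz (w a) = 1 ∧
      ∀ g < 4 * (N * N), ∀ s < 24,
        ∑ a ∈ range (N * N * KK), bz (w a) * (par N a g s : ZMod 2) = 0 := by
  unfold Cert
  refine and_congr_right fun _ => and_congr ?_ ?_
  · rw [← natCast_one]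
    have e : ((∑ a ∈ range (N * N * KK), if w a = true then 1 else 0 : ℕ) : ZMod 2) =
        ∑ a ∈ range (N * N * KK), bz (w a) := by
      rw [Nat.cast_sum]
      refine Finset.sum_congr rfl fun a _ => ?_
      unfold bz
      split_ifs <;> simp
    rw [e]
  · refine forall_congr' fun g => forall_congr' fun _ => forall_congr' fun s =>
      forall_congr' fun _ => ?_
    rw [← natCast_zero]
    have e : ((∑ a ∈ range (N * N * KK), ∑ c ∈ range 8,
        if w a = true ∧ eN N (a / KK) c = g ∧ (a % KK).testBit (24 * c + s) = true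
          then 1 else 0 : ℕ) : ZMod 2) =
        ∑ a ∈ range (N * N * KK), bz (w a) * (par N a g s : ZMod 2) := by
      rw [Nat.cast_sum]
      refine Finset.sum_congr rfl fun a _ => ?_
      by_cases h : w a = true
      · rw [h, bz_true, one_mul]
        unfold par
        congr 1
        refine Finset.sum_congr rfl fun c _ => ?_
        simp only [true_and]
      · have h' : w a = false := by simpa using h
        rw [h', bz_false, zero_mul]
        simp
    rw [e]

/-! ### The system -/

section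

variable (T K : ℕ) (N : ℕ → ℕ) (Q : ℕ → Prop) (X : ℕ → ℕ → Bool)

/-- The label `a` of the question `t` is present. -/
def Prs (t a : ℕ) : Prop := (t < T ∧ Q t) ∧ (a < N t * N t * KK ∧ X t a = true)

/-- The entries of the matrix. -/
def En (r c : ℕ) : Prop :=
  Prs T N Q X (r / K) (r % K) ∧ (c = 0 ∨ ((c - 1) / 24 / (4 * K) = r / K ∧
    ((c - 1) / 24 % (4 * K) < 4 * (N (r / K) * N (r / K)) ∧
      par (N (r / K)) (r % K) ((c - 1) / 24 % (4 * K)) ((c - 1) % 24) % 2 = 1)))

open Classical in
/-- The matrix. -/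
noncomputable def Mx (r c : ℕ) : Bool := decide (En T K N Q X r c)

/-- The size of the matrix. -/
def DD : ℕ := 1 + T * (4 * K) * 24

variable {T K N Q X}

lemma mx_iff {r c : ℕ} : Mx T K N Q X r c = true ↔ En T K N Q X r c := by
  classical
  unfold Mx
  exact decide_eq_true_iff

lemma sum_blocks (f : ℕ → ZMod 2) (T K : ℕ) :
    ∑ r ∈ range (T * K), f r = ∑ t ∈ range T, ∑ a ∈ range K, f (t * K + a) := by
  induction T with
  | zero => simp
  | succ T ih => rw [Nat.succ_mul, Finset.sum_range_add, ih, Finset.sum_range_succ]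

lemma lt_of_prs {t a : ℕ} (hNK : ∀ t < T, Q t → N t * N t * KK ≤ K) (h : Prs T N Q X t a) :
    a < K := lt_of_lt_of_le h.2.1 (hNK t h.1.1 h.1.2)

/-- The sum over the rows. -/
lemma sum_rows (hNK : ∀ t < T, Q t → N t * N t * KK ≤ K) (f : ℕ → ZMod 2)
    (hf : ∀ r, ¬ Prs T N Q X (r / K) (r % K) → f r = 0) :
    ∑ r ∈ range (DD T K), f r = ∑ t ∈ range T, ∑ a ∈ range K, f (t * K + a) := by
  rw [← sum_blocks]
  symm
  refine Finset.sum_subset (Finset.range_subset_range.mpr ?_) fun r _ hr => hf r fun hp => ?_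
  · unfold DD
    have : T * K ≤ T * (4 * K) * 24 := by
      calc T * K = T * K * 1 := (mul_one _).symm
        _ ≤ T * (4 * K) * 24 := Nat.mul_le_mul (Nat.mul_le_mul_left _ (by omega)) (by omega)
    omega
  · rw [mem_range, not_lt] at hr
    have hK : 0 < K := lt_of_le_of_lt (Nat.zero_le _) (lt_of_prs hNK hp)
    have h1 : T ≤ r / K := (Nat.le_div_iff_mul_le hK).mpr hr
    exact absurd hp.1.1 (by omega)

lemma row_idx {t a : ℕ} (ha : a < K) : (t * K + a) / K = t ∧ (t * K + a) % K = a := by
  have hK : 0 < K := by omega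
  constructor
  · rw [mul_comm, Nat.mul_add_div hK, Nat.div_eq_of_lt ha, add_zero]
  · rw [mul_comm, Nat.mul_add_mod, Nat.mod_eq_of_lt ha]

/-- The column of the unknown `(g, s)` of the question `t`. -/
def col (K t g s : ℕ) : ℕ := 1 + ((t * (4 * K) + g) * 24 + s)

lemma col_idx {t g s : ℕ} (hg : g < 4 * K) (hs : s < 24) :
    (col K t g s - 1) / 24 / (4 * K) = t ∧ (col K t g s - 1) / 24 % (4 * K) = g ∧
      (col K t g s - 1) % 24 = s := by
  have hK : 0 < 4 * K := by omega
  have h0 : col K t g s - 1 = 24 * (t * (4 * K) + g) + s := by unfold col; omega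
  have h1 : (col K t g s - 1) / 24 = t * (4 * K) + g := by rw [h0]; omega
  have h2 : (col K t g s - 1) % 24 = s := by rw [h0]; omega
  refine ⟨?_, ?_, h2⟩
  · rw [h1, mul_comm, Nat.mul_add_div hK, Nat.div_eq_of_lt hg, add_zero]
  · rw [h1, mul_comm, Nat.mul_add_mod, Nat.mod_eq_of_lt hg]

lemma col_lt {t g s : ℕ} (ht : t < T) (hg : g < 4 * K) (hs : s < 24) :
    col K t g s < DD T K := by
  unfold col DD
  have h1 : t * (4 * K) + g < T * (4 * K) := by
    calc t * (4 * K) + g < t * (4 * K) + 4 * K := by omega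
      _ = (t + 1) * (4 * K) := by ring
      _ ≤ T * (4 * K) := Nat.mul_le_mul_right _ ht
  omega

/-- The block of the question `t`, right side. -/
lemma block_zero {t : ℕ} (ht : t < T) (hQ : Q t) (hK : N t * N t * KK ≤ K)
    (u : ℕ → ZMod 2) : ∑ a ∈ range K, u a * bz (Mx T K N Q X (t * K + a) 0) =
      ∑ a ∈ range (N t * N t * KK), u a * bz (X t a) := by
  symm
  rw [← Finset.sum_subset (Finset.range_subset_range.mpr hK) fun a ha hna => ?_]
  · refine Finset.sum_congr rfl fun a ha => ?_
    rw [mem_range] at ha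
    obtain ⟨h1, h2⟩ := row_idx (t := t) (lt_of_lt_of_le ha hK)
    congr 2
    rw [Bool.eq_iff_iff, mx_iff]
    unfold En
    rw [h1, h2]
    exact ⟨fun h => ⟨⟨⟨ht, hQ⟩, ha, h⟩, Or.inl rfl⟩, fun h => h.1.2.2⟩
  · rw [mem_range] at ha hna
    obtain ⟨h1, h2⟩ := row_idx (t := t) ha
    have h3 : Mx T K N Q X (t * K + a) 0 = false := by
      by_contra h
      rw [Bool.not_eq_false, mx_iff] at h
      unfold En at h
      rw [h1, h2] at h
      exact hna h.1.2.1
    rw [h3, bz_false, mul_zero]

/-- The block of the question `t`, the column of an unknown. -/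
lemma block_col {t c g s : ℕ} (ht : t < T) (hQ : Q t) (hK : N t * N t * KK ≤ K)
    (hc : c ≠ 0) (h1 : (c - 1) / 24 / (4 * K) = t) (h2 : (c - 1) / 24 % (4 * K) = g)
    (h3 : (c - 1) % 24 = s) (hg : g < 4 * (N t * N t)) (u : ℕ → ZMod 2) :
    ∑ a ∈ range K, u a * bz (Mx T K N Q X (t * K + a) c) =
      ∑ a ∈ range (N t * N t * KK), u a * bz (X t a) * (par (N t) a g s : ZMod 2) := by
  symm
  rw [← Finset.sum_subset (Finset.range_subset_range.mpr hK) fun a ha hna => ?_]
  · refine Finset.sum_congr rfl fun a ha => ?_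
    rw [mem_range] at ha
    obtain ⟨e1, e2⟩ := row_idx (t := t) (lt_of_lt_of_le ha hK)
    rw [mul_assoc]
    congr 1
    have h4 : Mx T K N Q X (t * K + a) c = true ↔ X t a = true ∧ par (N t) a g s % 2 = 1 := by
      rw [mx_iff]
      unfold En
      rw [e1, e2, h1, h2, h3]
      constructor
      · rintro ⟨h, h' | ⟨-, -, h'⟩⟩
        · exact absurd h' hc
        · exact ⟨h.2.2, h'⟩
      · rintro ⟨h, h'⟩
        exact ⟨⟨⟨ht, hQ⟩, ha, h⟩, Or.inr ⟨rfl, hg, h'⟩⟩
    by_cases h5 : X t a = true
    · rw [h5, bz_true, one_mul]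
      by_cases h6 : par (N t) a g s % 2 = 1
      · rw [h4.mpr ⟨h5, h6⟩, bz_true, natCast_one.mpr h6]
      · have h7 : Mx T K N Q X (t * K + a) c = false := by
          by_contra h
          exact h6 (h4.mp (by simpa using h)).2
        rw [h7, bz_false, natCast_zero.mpr (by omega)]
    · have h7 : Mx T K N Q X (t * K + a) c = false := by
        by_contra h
        exact h5 (h4.mp (by simpa using h)).1
      have h8 : X t a = false := by simpa using h5
      rw [h7, h8, bz_false, zero_mul]
  · rw [mem_range] at ha hna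
    obtain ⟨e1, e2⟩ := row_idx (t := t) ha
    have h3 : Mx T K N Q X (t * K + a) c = false := by
      by_contra h
      rw [Bool.not_eq_false, mx_iff] at h
      unfold En at h
      rw [e1, e2] at h
      exact hna h.1.2.1
    rw [h3, bz_false, mul_zero]

lemma mx_false {r c : ℕ} (h : ¬ Prs T N Q X (r / K) (r % K)) : Mx T K N Q X r c = false := by
  by_contra h1
  rw [Bool.not_eq_false, mx_iff] at h1
  exact h h1.1

lemma sq_le {t g : ℕ} (hK : N t * N t * KK ≤ K) (hg : g < 4 * (N t * N t)) : g < 4 * K := by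
  have h1 : N t * N t ≤ N t * N t * KK := Nat.le_mul_of_pos_right _ KK_pos
  omega

/-- **The family of questions and the system.** -/
theorem inc_iff (hNK : ∀ t < T, Q t → N t * N t * KK ≤ K) :
    Inc (DD T K) (Mx T K N Q X) ↔ ∃ t < T, Q t ∧ ∃ w, Cert (N t) (X t) w := by
  classical
  have hD : 0 < DD T K := by unfold DD; omega
  have hrows : ∀ (w : ℕ → ZMod 2) (c : ℕ), ∑ r ∈ range (DD T K), w r * bz (Mx T K N Q X r c) =
      ∑ t ∈ range T, ∑ a ∈ range K, w (t * K + a) * bz (Mx T K N Q X (t * K + a) c) :=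
    fun w c => sum_rows hNK (fun r => w r * bz (Mx T K N Q X r c)) fun r hr => by
      show w r * bz (Mx T K N Q X r c) = 0
      rw [mx_false hr, bz_false, mul_zero]
  constructor
  · rintro ⟨w, hw⟩
    have h0 := hw 0 hD
    rw [if_pos rfl, hrows] at h0
    obtain ⟨t, ht, hne⟩ := Finset.exists_ne_zero_of_sum_ne_zero (by rw [h0]; decide)
    rw [mem_range] at ht
    obtain ⟨a₀, ha₀, hne'⟩ := Finset.exists_ne_zero_of_sum_ne_zero hne
    have hQ : Q t := by
      by_contra hQ
      apply hne'
      rw [mx_false, bz_false, mul_zero]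
      rw [(row_idx (mem_range.mp ha₀)).1]
      exact fun h => hQ h.1.2
    have hK := hNK t ht hQ
    refine ⟨t, ht, hQ, fun a => decide (w (t * K + a) = 1) && X t a, ?_⟩
    have hz : ∀ a : ZMod 2, a ≠ 0 → a = 1 := by decide
    have hb : ∀ a, bz (decide (w (t * K + a) = 1) && X t a) = w (t * K + a) * bz (X t a) := by
      intro a
      rw [bz_and]
      congr 1
      by_cases h : w (t * K + a) = 1
      · rw [decide_eq_true h, bz_true, h]
      · have h' : w (t * K + a) = 0 := by
          by_contra hcon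
          exact h (hz _ hcon)
        rw [decide_eq_false h, bz_false, h']
    rw [cert_zmod]
    refine ⟨fun a _ h => by
      rw [Bool.and_eq_true] at h
      exact h.2, ?_, fun g hg s hs => ?_⟩
    · simp only [hb]
      rw [← block_zero ht hQ hK fun a => w (t * K + a)]
      exact hz _ hne
    · simp only [hb]
      have hgK := sq_le hK hg
      obtain ⟨c1, c2, c3⟩ := col_idx (t := t) hgK hs
      have hc0 : col K t g s ≠ 0 := by unfold col; omega
      rw [← block_col ht hQ hK hc0 c1 c2 c3 hg fun a => w (t * K + a)]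
      have h1 := hw (col K t g s) (col_lt ht hgK hs)
      rw [if_neg hc0, hrows, Finset.sum_eq_single_of_mem t (mem_range.mpr ht)] at h1
      · exact h1
      · intro t' _ hne2
        refine Finset.sum_eq_zero fun a ha => ?_
        rw [mem_range] at ha
        have h2 : Mx T K N Q X (t' * K + a) (col K t g s) = false := by
          by_contra h
          rw [Bool.not_eq_false, mx_iff] at h
          unfold En at h
          rw [(row_idx ha).1, c1] at h
          rcases h.2 with h | h
          · exact hc0 h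
          · exact hne2 h.1.symm
        rw [h2, bz_false, mul_zero]
  · rintro ⟨t, ht, hQ, w, hw⟩
    have hK := hNK t ht hQ
    rw [cert_zmod] at hw
    obtain ⟨w1, w2, w3⟩ := hw
    have hwx : ∀ a ∈ range (N t * N t * KK), bz (w a) * bz (X t a) = bz (w a) := by
      intro a ha
      by_cases h : w a = true
      · rw [w1 a (mem_range.mp ha) h, bz_true, mul_one]
      · have h' : w a = false := by simpa using h
        rw [h', bz_false, zero_mul]
    refine ⟨fun r => if r / K = t then bz (w (r % K)) else 0, fun c hc => ?_⟩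
    rw [hrows, Finset.sum_eq_single_of_mem t (mem_range.mpr ht)]
    · have e : ∑ a ∈ range K, (if (t * K + a) / K = t then bz (w ((t * K + a) % K)) else 0) *
          bz (Mx T K N Q X (t * K + a) c) =
          ∑ a ∈ range K, bz (w a) * bz (Mx T K N Q X (t * K + a) c) := by
        refine Finset.sum_congr rfl fun a ha => ?_
        obtain ⟨e1, e2⟩ := row_idx (t := t) (mem_range.mp ha)
        rw [if_pos e1, e2]
      rw [e]
      by_cases hc0 : c = 0
      · subst hc0
        rw [if_pos rfl, block_zero ht hQ hK, Finset.sum_congr rfl hwx]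
        exact w2
      · rw [if_neg hc0]
        by_cases h1 : (c - 1) / 24 / (4 * K) = t ∧ (c - 1) / 24 % (4 * K) < 4 * (N t * N t)
        · rw [block_col ht hQ hK hc0 h1.1 rfl rfl h1.2]
          rw [Finset.sum_congr rfl fun a ha => by rw [hwx a ha]]
          exact w3 _ h1.2 _ (Nat.mod_lt _ (by norm_num))
        · refine Finset.sum_eq_zero fun a ha => ?_
          rw [mem_range] at ha
          have h2 : Mx T K N Q X (t * K + a) c = false := by
            by_contra h
            rw [Bool.not_eq_false, mx_iff] at h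
            unfold En at h
            rw [(row_idx ha).1] at h
            rcases h.2 with h | h
            · exact hc0 h
            · exact h1 ⟨h.1, h.2.1⟩
          rw [h2, bz_false, mul_zero]
    · intro t' _ hne
      refine Finset.sum_eq_zero fun a ha => ?_
      rw [(row_idx (mem_range.mp ha)).1, if_neg hne, zero_mul]

end

/-! ### Polynomial time -/

lemma pf_par {α : Type} [Ctx α] {N A G S : List Bool → α → ℕ} (hN : PF N) (hA : PF A)
    (hG : PF G) (hS : PF S) : PF (fun y a => par (N y a) (A y a) (G y a) (S y a)) := by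
  refine PF.sum (B := fun _ _ => 8) (F := fun y (p : α × ℕ) =>
    if eN (N y p.1) (A y p.1 / KK) p.2 = G y p.1 ∧
      (A y p.1 % KK).testBit (24 * p.2 + S y p.1) = true then 1 else 0) (PF.const 8) ?_
  exact PF.ite ((PD.eq (pf_eN hN.fst (hA.fst.div (PF.const KK)) PF.snd) hG.fst).and
    (PD.testBit (hA.fst.mod (PF.const KK)) (((PF.const 24).mul PF.snd).add hS.fst)))
    (PF.const 1) (PF.const 0)

open Classical in
/-- **A family of certificate questions is decided in polynomial time.** -/
theorem cert_polyTime {T K : List Bool → ℕ} {N : List Bool → ℕ → ℕ} {Q : List Bool → ℕ → Prop}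
    {X : List Bool → ℕ → ℕ → Bool} (hT : PF (fun y (_ : Unit) => T y))
    (hK : PF (fun y (_ : Unit) => K y)) (hN : PF (fun y (p : Unit × ℕ) => N y p.2))
    (hQ : PD (fun y (p : Unit × ℕ) => Q y p.2))
    (hX : PD (fun y (p : (Unit × ℕ) × ℕ) => X y p.1.2 p.2 = true))
    (hNK : ∀ y, ∀ t < T y, Q y t → N y t * N y t * KK ≤ K y) :
    Nonempty (TM2ComputableInPolyTime (id : List Bool → List Bool)
      (id : List Bool → List Bool)
      fun y => [decide (∃ t < T y, Q y t ∧ ∃ w, Cert (N y t) (X y t) w)]) := by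
  have hKc : PF (fun y (_ : (Unit × ℕ) × ℕ) => K y) := hK.fst.fst
  have hTc : PF (fun y (_ : (Unit × ℕ) × ℕ) => T y) := hT.fst.fst
  have hr : PF (fun y (p : (Unit × ℕ) × ℕ) => p.1.2 / K y) := PF.snd.fst.div hKc
  have ha : PF (fun y (p : (Unit × ℕ) × ℕ) => p.1.2 % K y) := PF.snd.fst.mod hKc
  have hc : PF (fun y (p : (Unit × ℕ) × ℕ) => (p.2 - 1) / 24) :=
    (PF.snd.sub (PF.const 1)).div (PF.const 24)
  have h4 : PF (fun y (_ : (Unit × ℕ) × ℕ) => 4 * K y) := (PF.const 4).mul hKc
  have hNr : PF (fun y (p : (Unit × ℕ) × ℕ) => N y (p.1.2 / K y)) :=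
    PF.sub1 (Proj.id.fst.fst) hr hN
  have hQr : PD (fun y (p : (Unit × ℕ) × ℕ) => Q y (p.1.2 / K y)) :=
    PD.sub1 (Proj.id.fst.fst) hr hQ
  have hXr : PD (fun y (p : (Unit × ℕ) × ℕ) => X y (p.1.2 / K y) (p.1.2 % K y) = true) :=
    PD.sub2 (Proj.id.fst.fst) hr ha hX
  have hE : PD (fun y (p : (Unit × ℕ) × ℕ) =>
      Mx (T y) (K y) (N y) (Q y) (X y) p.1.2 p.2 = true) := by
    refine PD.congr (P := fun y (p : (Unit × ℕ) × ℕ) =>
      En (T y) (K y) (N y) (Q y) (X y) p.1.2 p.2) ?_ fun _ _ => mx_iff.symm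
    exact (((PD.lt hr hTc).and hQr).and ((PD.lt ha ((hNr.mul hNr).mul (PF.const KK))).and
      hXr)).and ((PD.eq PF.snd (PF.const 0)).or ((PD.eq (hc.div h4) hr).and
        ((PD.lt (hc.mod h4) ((PF.const 4).mul (hNr.mul hNr))).and
          (PD.eq ((pf_par hNr ha (hc.mod h4) ((PF.snd.sub (PF.const 1)).mod (PF.const 24))).mod
            (PF.const 2)) (PF.const 1)))))
  have hD : PF (fun y (_ : Unit) => DD (T y) (K y)) :=
    (PF.const 1).add ((hT.mul ((PF.const 4).mul hK)).mul (PF.const 24))
  have h := gauss_polyTime hD hE fun y => by unfold DD; omega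
  have e : (fun y : List Bool => [decide (Inc (DD (T y) (K y)) (Mx (T y) (K y) (N y) (Q y) (X y)))])
      = fun y => [decide (∃ t < T y, Q y t ∧ ∃ w, Cert (N y t) (X y t) w)] := by
    funext y
    congr 1
    exact decide_eq_decide.mpr (inc_iff (hNK y))
  rw [← e]
  exact h

end Pool.Agent.GE
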