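import Pool.Agent.Lib.PolyTime.Iter
import Pool.Agent.Lib.PolyTime.PL

set_option autoImplicit false

/-!
# Gaussian elimination over the field with two elements in polynomial time

A square matrix of bits with rows and columns `0, ..., D - 1` is a system of linear equations: a row is
an equation, the column `0` is the right side, the other columns are the unknowns.
-/

namespace Pool.Agent.GE

open Finset Pool.Agent.PolyTime

/-! ### Elimination -/

/-- The bit as an element of the field. -/
def bz (b : Bool) : ZMod 2 := if b = true then 1 else 0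

@[simp] lemma bz_true : bz true = 1 := rfl

@[simp] lemma bz_false : bz false = 0 := rfl

lemma bz_xor (a b : Bool) : bz (xor a b) = bz a + bz b := by
  cases a <;> cases b <;> decide

lemma bz_and (a b : Bool) : bz (a && b) = bz a * bz b := by
  cases a <;> cases b <;> decide

lemma add_self_zmod (a : ZMod 2) : a + a = 0 := by
  have h : ∀ a : ZMod 2, a + a = 0 := by decide
  exact h a

/-- Some combination of the equations is `0 = 1`. -/
def Inc (D : ℕ) (M : ℕ → ℕ → Bool) : Prop :=
  ∃ w : ℕ → ZMod 2, ∀ c < D, ∑ r ∈ range D, w r * bz (M r c) = if c = 0 then 1 else 0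

/-- The pivot: the first equation with an unknown, and its first unknown. -/
def Piv (D : ℕ) (M : ℕ → ℕ → Bool) (j p : ℕ) : Prop :=
  (1 ≤ j ∧ M p j = true) ∧ (∀ r < p, ∀ c < D, 1 ≤ c → M r c = false) ∧
    ∀ c < j, 1 ≤ c → M p c = false

/-- The matrix after the elimination of the unknown `j` with the equation `p`. -/
def elim (M : ℕ → ℕ → Bool) (j p r c : ℕ) : Bool :=
  if r = p then false else xor (M r c) (M r j && M p c)

/-- The next bit. -/
def NB (D : ℕ) (M : ℕ → ℕ → Bool) (r c : ℕ) : Prop :=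
  (∃ j < D, ∃ p < D, Piv D M j p ∧ elim M j p r c = true) ∨
    ((¬ ∃ j < D, ∃ p < D, Piv D M j p) ∧ M r c = true)

lemma piv_unique {D : ℕ} {M : ℕ → ℕ → Bool} {j p j' p' : ℕ} (hj : j < D) (hj' : j' < D)
    (h : Piv D M j p) (h' : Piv D M j' p') : j = j' ∧ p = p' := by
  obtain ⟨⟨a1, a2⟩, a3, a4⟩ := h
  obtain ⟨⟨b1, b2⟩, b3, b4⟩ := h'
  have hp : p = p' := by
    rcases lt_trichotomy p p' with h | h | h
    · have := b3 p h j hj a1
      rw [a2] at this
      exact absurd this (by simp)
    · exact h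
    · have := a3 p' h j' hj' b1
      rw [b2] at this
      exact absurd this (by simp)
  subst hp
  refine ⟨?_, rfl⟩
  rcases lt_trichotomy j j' with h | h | h
  · have := b4 j h a1
    rw [a2] at this
    exact absurd this (by simp)
  · exact h
  · have := a4 j' h b1
    rw [b2] at this
    exact absurd this (by simp)

lemma exists_piv {D : ℕ} {M : ℕ → ℕ → Bool}
    (h : ∃ r < D, ∃ c < D, 1 ≤ c ∧ M r c = true) : ∃ j < D, ∃ p < D, Piv D M j p := by
  classical
  set P : ℕ → Prop := fun r => r < D ∧ ∃ c < D, 1 ≤ c ∧ M r c = true with hP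
  have hP0 : ∃ r, P r := by
    obtain ⟨r, hr, hc⟩ := h
    exact ⟨r, hr, hc⟩
  set p := Nat.find hP0 with hp
  obtain ⟨hpD, hpc⟩ := Nat.find_spec hP0
  set Q : ℕ → Prop := fun c => c < D ∧ 1 ≤ c ∧ M p c = true with hQ
  have hQ0 : ∃ c, Q c := by
    obtain ⟨c, hc, h1, h2⟩ := hpc
    exact ⟨c, hc, h1, h2⟩
  set j := Nat.find hQ0 with hj
  obtain ⟨hjD, hj1, hj2⟩ := Nat.find_spec hQ0
  refine ⟨j, hjD, p, hpD, ⟨hj1, hj2⟩, fun r hr c hc h1 => ?_, fun c hc h1 => ?_⟩
  · have h2 := Nat.find_min hP0 hr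
    by_contra h3
    exact h2 ⟨by omega, c, hc, h1, by simpa using h3⟩
  · have h2 := Nat.find_min hQ0 hc
    by_contra h3
    exact h2 ⟨by omega, h1, by simpa using h3⟩

lemma nb_piv {D : ℕ} {M : ℕ → ℕ → Bool} {j p : ℕ} (hj : j < D) (hp : p < D) (h : Piv D M j p)
    (r c : ℕ) : NB D M r c ↔ elim M j p r c = true := by
  constructor
  · rintro (⟨j', hj', p', hp', h1, h2⟩ | ⟨h1, -⟩)
    · obtain ⟨rfl, rfl⟩ := piv_unique hj hj' h h1
      exact h2
    · exact absurd ⟨j, hj, p, hp, h⟩ h1
  · intro h1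
    exact Or.inl ⟨j, hj, p, hp, h, h1⟩

lemma inc_congr {D : ℕ} {M M' : ℕ → ℕ → Bool} (h : ∀ r < D, ∀ c < D, M r c = M' r c) :
    Inc D M ↔ Inc D M' := by
  unfold Inc
  refine exists_congr fun w => forall_congr' fun c => forall_congr' fun hc => ?_
  have e : ∑ r ∈ range D, w r * bz (M r c) = ∑ r ∈ range D, w r * bz (M' r c) :=
    Finset.sum_congr rfl fun r hr => by rw [h r (mem_range.mp hr) c hc]
  rw [e]

/-- The elimination of an unknown keeps the inconsistency. -/
lemma inc_elim {D : ℕ} {M : ℕ → ℕ → Bool} {j p : ℕ} (hp : p < D) (hj : j < D)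
    (hj1 : 1 ≤ j) (hpj : M p j = true) : Inc D M ↔ Inc D (elim M j p) := by
  have hsplit : ∀ f : ℕ → ZMod 2, ∑ r ∈ range D, f r = f p + ∑ r ∈ (range D).erase p, f r :=
    fun f => (Finset.add_sum_erase _ _ (mem_range.mpr hp)).symm
  have hel : ∀ c, ∀ r ∈ (range D).erase p,
      bz (elim M j p r c) = bz (M r c) + bz (M r j) * bz (M p c) := by
    intro c r hr
    unfold elim
    rw [if_neg (Finset.ne_of_mem_erase hr), bz_xor, bz_and]
  have hep : ∀ c, bz (elim M j p p c) = 0 := by
    intro c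
    unfold elim
    rw [if_pos rfl]
    rfl
  have key : ∀ (w : ℕ → ZMod 2) (c : ℕ), ∑ r ∈ range D, w r * bz (elim M j p r c) =
      ∑ r ∈ (range D).erase p, w r * bz (M r c) +
        (∑ r ∈ (range D).erase p, w r * bz (M r j)) * bz (M p c) := by
    intro w c
    rw [hsplit, hep, mul_zero, zero_add, Finset.sum_mul, ← Finset.sum_add_distrib]
    refine Finset.sum_congr rfl fun r hr => ?_
    rw [hel c r hr]
    ring
  constructor
  · rintro ⟨w, hw⟩
    refine ⟨w, fun c hc => ?_⟩
    rw [key]
    have h1 := hw c hc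
    have h2 := hw j hj
    rw [hsplit] at h1 h2
    rw [if_neg (by omega : ¬ j = 0), hpj, bz_true, mul_one] at h2
    have h3 : ∑ r ∈ (range D).erase p, w r * bz (M r j) = w p := by
      have h4 : w p + w p = 0 := add_self_zmod _
      calc ∑ r ∈ (range D).erase p, w r * bz (M r j)
          = (w p + ∑ r ∈ (range D).erase p, w r * bz (M r j)) + w p - (w p + w p) := by ring
        _ = w p := by rw [h2, h4]; ring
    rw [h3, add_comm]
    exact h1
  · rintro ⟨w, hw⟩
    refine ⟨Function.update w p (∑ r ∈ (range D).erase p, w r * bz (M r j)), fun c hc => ?_⟩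
    rw [← hw c hc, key, hsplit, Function.update_self, add_comm]
    congr 1
    refine Finset.sum_congr rfl fun r hr => ?_
    rw [Function.update_of_ne (Finset.ne_of_mem_erase hr)]

open Classical in
/-- The number of the equations with an unknown. -/
noncomputable def nz (D : ℕ) (M : ℕ → ℕ → Bool) : ℕ :=
  ((range D).filter fun r => ∃ c < D, 1 ≤ c ∧ M r c = true).card

/-- One step of the elimination. -/
lemma step_spec {D : ℕ} {M M' : ℕ → ℕ → Bool}
    (h : ∀ r < D, ∀ c < D, (M' r c = true ↔ NB D M r c)) :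
    (Inc D M' ↔ Inc D M) ∧ nz D M' ≤ nz D M - 1 := by
  classical
  by_cases hex : ∃ r < D, ∃ c < D, 1 ≤ c ∧ M r c = true
  · obtain ⟨j, hj, p, hp, hpiv⟩ := exists_piv hex
    have h1 : ∀ r < D, ∀ c < D, M' r c = elim M j p r c := by
      intro r hr c hc
      rw [Bool.eq_iff_iff, h r hr c hc, nb_piv hj hp hpiv]
    refine ⟨(inc_congr h1).trans (inc_elim hp hj hpiv.1.1 hpiv.1.2).symm, ?_⟩
    unfold nz
    rw [Nat.le_sub_one_iff_lt]
    · refine Finset.card_lt_card ⟨fun r hr => ?_, fun hsub => ?_⟩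
      · rw [Finset.mem_filter] at hr ⊢
        obtain ⟨hr1, c, hc, hc1, hc2⟩ := hr
        refine ⟨hr1, ?_⟩
        rw [h1 r (mem_range.mp hr1) c hc] at hc2
        unfold elim at hc2
        by_cases hrp : r = p
        · rw [if_pos hrp] at hc2
          exact absurd hc2 (by simp)
        · rw [if_neg hrp] at hc2
          by_cases hrc : M r c = true
          · exact ⟨c, hc, hc1, hrc⟩
          · refine ⟨j, hj, hpiv.1.1, ?_⟩
            have : M r c = false := by simpa using hrc
            rw [this] at hc2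
            by_contra hcon
            have h3 : M r j = false := by simpa using hcon
            rw [h3] at hc2
            simp at hc2
      · have h2 : p ∈ (range D).filter fun r => ∃ c < D, 1 ≤ c ∧ M r c = true :=
          Finset.mem_filter.2 ⟨mem_range.mpr hp, j, hj, hpiv.1.1, hpiv.1.2⟩
        obtain ⟨-, c, hc, hc1, hc2⟩ := Finset.mem_filter.1 (hsub h2)
        rw [h1 p hp c hc] at hc2
        unfold elim at hc2
        rw [if_pos rfl] at hc2
        exact absurd hc2 (by simp)
    · obtain ⟨r, hr, c, hc, hc1, hc2⟩ := hex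
      exact Finset.card_pos.2 ⟨r, Finset.mem_filter.2 ⟨mem_range.mpr hr, c, hc, hc1, hc2⟩⟩
  · have hno : ¬ ∃ j < D, ∃ p < D, Piv D M j p := by
      rintro ⟨j, hj, p, hp, hpiv⟩
      exact hex ⟨p, hp, j, hj, hpiv.1.1, hpiv.1.2⟩
    have h1 : ∀ r < D, ∀ c < D, M' r c = M r c := by
      intro r hr c hc
      rw [Bool.eq_iff_iff, h r hr c hc]
      constructor
      · rintro (⟨j, hj, p, hp, h2, -⟩ | ⟨-, h2⟩)
        · exact absurd ⟨j, hj, p, hp, h2⟩ hno
        · exact h2
      · exact fun h2 => Or.inr ⟨hno, h2⟩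
    refine ⟨inc_congr h1, ?_⟩
    have h2 : nz D M' = 0 := by
      unfold nz
      rw [Finset.card_eq_zero, Finset.filter_eq_empty_iff]
      rintro r hr ⟨c, hc, hc1, hc2⟩
      rw [h1 r (mem_range.mp hr) c hc] at hc2
      exact hex ⟨r, mem_range.mp hr, c, hc, hc1, hc2⟩
    omega

/-- A system without unknowns. -/
lemma inc_of_nz {D : ℕ} {M : ℕ → ℕ → Bool} (hD : 0 < D) (h : nz D M = 0) :
    Inc D M ↔ ∃ r < D, M r 0 = true := by
  classical
  have h0 : ∀ r < D, ∀ c < D, 1 ≤ c → M r c = false := by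
    intro r hr c hc h1
    by_contra h2
    unfold nz at h
    rw [Finset.card_eq_zero, Finset.filter_eq_empty_iff] at h
    exact h (mem_range.mpr hr) ⟨c, hc, h1, by simpa using h2⟩
  constructor
  · rintro ⟨w, hw⟩
    by_contra hno
    have h1 := hw 0 hD
    rw [if_pos rfl, Finset.sum_eq_zero fun r hr => ?_] at h1
    · exact absurd h1 (by decide)
    · have h2 : M r 0 = false := by
        by_contra h3
        exact hno ⟨r, mem_range.mp hr, by simpa using h3⟩
      rw [h2, bz_false, mul_zero]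
  · rintro ⟨r, hr, h1⟩
    refine ⟨fun s => if s = r then 1 else 0, fun c hc => ?_⟩
    rw [Finset.sum_eq_single_of_mem r (mem_range.mpr hr) fun s _ hs => by
      dsimp only
      rw [if_neg hs, zero_mul]]
    dsimp only
    rw [if_pos rfl, one_mul]
    split_ifs with h2
    · rw [h2, h1, bz_true]
    · rw [h0 r hr c hc (by omega), bz_false]

end Pool.Agent.GE
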