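import Mathlib

/-!
# The class P
-/

set_option autoImplicit false

namespace Pool.Agent.GE

/-- The language with characteristic function `L` is decidable in polynomial time (Mathlib's
`TM2ComputableInPolyTime`). -/
def InP (L : List Bool → Bool) : Prop :=
  Nonempty (Turing.TM2ComputableInPolyTime (id : List Bool → List Bool)
    (id : List Bool → List Bool) fun x => [L x])

end Pool.Agent.GE
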