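import Pool.Agent.GE.MainP

set_option autoImplicit false

/-!
# A monotone language in P: small devices with few accepting guesses must see many zeros in every set
of positions
-/

namespace Pool.Agent.GE

open Finset Pool.Agent.NegLim Pool.Agent.XL Pool.Agent.NWE Pool.Agent.TeleNeg

/-- A function computed by a small device is monotone. -/
theorem small2_mono {k : ℕ} {κ : Type} {G : (κ → Bool) → Bool} (h : Small2 k G) :
    Monotone G := by
  rcases h with ⟨S, -, N, hN⟩ | ⟨S, -, P, hP⟩ | ⟨S, -, N, hN⟩ | ⟨F, iF, -, S, -, P, hP⟩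
  · exact (NTR.Gen.netClass S).mono _ G ⟨N, hN⟩
  · exact (compClass S).mono _ G ⟨P, hP⟩
  · exact (NTR.Gen.dnetClass S).mono _ G ⟨N, hN⟩
  · intro x y hxy
    rw [← hP, ← hP]
    exact P.val_mono hxy

theorem small2_le {k l : ℕ} (hkl : k ≤ l) {κ : Type} {G : (κ → Bool) → Bool} (h : Small2 k G) :
    Small2 l G := by
  have h1 : 2 ^ k ≤ 2 ^ l := Nat.pow_le_pow_right (by norm_num) hkl
  have h2 : 2 ^ Nat.sqrt k ≤ 2 ^ Nat.sqrt l :=
    Nat.pow_le_pow_right (by norm_num) (Nat.sqrt_le_sqrt hkl)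
  rcases h with ⟨S, hS, N, hN⟩ | ⟨S, hS, P, hP⟩ | ⟨S, hS, N, hN⟩ | ⟨F, iF, h3, S, hS, P, hP⟩
  · exact Or.inl ⟨S, hS.trans h1, N, hN⟩
  · exact Or.inr (Or.inl ⟨S, hS.trans h1, P, hP⟩)
  · exact Or.inr (Or.inr (Or.inl ⟨S, hS.trans h2, N, hN⟩))
  · exact Or.inr (Or.inr (Or.inr ⟨F, iF, h3, S, hS.trans h1, P, hP⟩))

/-- The number of subsets with at most `k` elements of a set with `M k` elements. -/
theorem card_small_subsets {ι : Type} [DecidableEq ι] {M k : ℕ} (hM : 1 ≤ M) (U : Finset ι)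
    (hU : U.card = M * k) :
    (U.powerset.filter fun Z => Z.card ≤ k).card ≤ (4 * M) ^ k := by
  have h1 : ∑ Z ∈ U.powerset, (1 : ℕ) ^ Z.card * M ^ (U.card - Z.card) = (1 + M) ^ U.card :=
    Finset.sum_pow_mul_eq_add_pow 1 M U
  have hk : k ≤ M * k := by nlinarith
  have h2 : (U.powerset.filter fun Z => Z.card ≤ k).card * M ^ (M * k - k) ≤ (1 + M) ^ (M * k) := by
    rw [← hU, ← h1, card_eq_sum_ones, sum_mul]
    refine (sum_le_sum fun Z hZ => ?_).trans
      (sum_le_sum_of_subset (filter_subset _ U.powerset))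
    simp only [one_pow, one_mul]
    refine Nat.pow_le_pow_right hM ?_
    have := (mem_filter.1 hZ).2
    omega
  have h3 : ((1 + M) ^ (M * k) : ℕ) ≤ M ^ (M * k) * 4 ^ k := by
    have hM0 : (0 : ℝ) < M := by exact_mod_cast hM
    have e1 : (1 + (M : ℝ)) ≤ M * Real.exp (1 / M) := by
      have := Real.add_one_le_exp (1 / (M : ℝ))
      calc (1 + (M : ℝ)) = M * (1 / M + 1) := by field_simp
        _ ≤ M * Real.exp (1 / M) := by gcongr
    have e2 : ((1 + (M : ℝ)) ^ M) ≤ M ^ M * 4 := by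
      calc ((1 + (M : ℝ)) ^ M) ≤ (M * Real.exp (1 / M)) ^ M := by gcongr
        _ = M ^ M * Real.exp 1 := by
          rw [mul_pow, ← Real.exp_nat_mul]
          congr 2
          field_simp
        _ ≤ M ^ M * 4 := by
          have := Real.exp_one_lt_d9
          gcongr
          linarith
    have e3 : (1 + M) ^ M ≤ M ^ M * 4 := by exact_mod_cast e2
    calc (1 + M) ^ (M * k) = ((1 + M) ^ M) ^ k := pow_mul _ _ _
      _ ≤ (M ^ M * 4) ^ k := Nat.pow_le_pow_left e3 k
      _ = M ^ (M * k) * 4 ^ k := by rw [mul_pow, pow_mul]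
  have h4 : M ^ (M * k) = M ^ k * M ^ (M * k - k) := by
    rw [← pow_add]
    congr 1
    omega
  have h5 : (U.powerset.filter fun Z => Z.card ≤ k).card * M ^ (M * k - k) ≤
      (4 * M) ^ k * M ^ (M * k - k) := by
    refine (h2.trans h3).trans (le_of_eq ?_)
    rw [h4, mul_pow]
    ring
  exact Nat.le_of_mul_le_mul_right h5 (Nat.pow_pos (by omega))

/-- **Few accepting guesses.** -/
theorem main_everyP_few : ∃ (C : ℕ) (L : List Bool → Bool), 1 ≤ C ∧ InP L ∧
    (∀ n : ℕ, Monotone fun x : Fin n → Bool => L (List.ofFn x)) ∧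
    ∀ (n k : ℕ) (U : Finset (Fin n)), 1 ≤ k → C * k ≤ U.card →
      ∃ (ρ : Fin n → Bool) (H : Finset (Fin n → Bool)), H.Nonempty ∧
        (∀ x ∈ H, L (List.ofFn x) = true ∧ ∀ v, v ∉ U → x v = ρ v) ∧
        ∀ (Y : Type) [Fintype Y] (D : Y → (Fin n ⊕ Fin n → Bool) → Bool),
          (∀ y, Small2 k (D y)) →
          (∀ x, (∀ v, v ∉ U → x v = ρ v) → {y | D y (lits x) = true}.ncard ≤ 2 ^ k ∧
            ∀ y, D y (lits x) = true → L (List.ofFn x) = true) →
          ∀ A ⊆ H, (∀ x ∈ A, ∃ (y : Y) (Z : Finset (Fin n)), Z ⊆ U ∧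
            (∀ v ∈ Z, x v = false) ∧ Z.card ≤ k ∧ D y (litsOn U Z x) = true) →
          2 ^ k * A.card ≤ H.card := by
  classical
  obtain ⟨C, L, hC, hP, hmono, hmain⟩ := main_everyP
  refine ⟨8 * C * C, L, by nlinarith, hP, hmono, fun n k U hk hU => ?_⟩
  obtain ⟨U', hU', hUc⟩ := exists_subset_card_eq hU
  have hk' : 1 ≤ 8 * C * k := by nlinarith
  have hU1 : C * (8 * C * k) ≤ U'.card := by
    rw [hUc]
    exact le_of_eq (by ring)
  obtain ⟨ρ, H, hH, hH1, hmain'⟩ := hmain n (8 * C * k) U' hk' hU1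
  refine ⟨ρ, H, hH, fun x hx => ⟨(hH1 x hx).1, fun v hv => (hH1 x hx).2 v fun h => hv (hU' h)⟩,
    fun Y _ D hD hs A hA hacc => ?_⟩
  -- the largest input with zeros at `Z`
  set top : Finset (Fin n) → Fin n → Bool := fun Z v =>
    if v ∈ U' then decide (v ∉ Z) else ρ v with htop
  have htop1 : ∀ Z v, v ∉ U' → top Z v = ρ v := fun Z v hv => by
    simp only [htop, if_neg hv]
  set Y' : Finset Y := (U'.powerset.filter fun Z => Z.card ≤ k).biUnion fun Z =>
    univ.filter fun y => D y (lits (top Z)) = true with hY'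
  have hcard : Y'.card ≤ 2 ^ ((2 * C + 4) * k) := by
    have h1 : Y'.card ≤ (U'.powerset.filter fun Z => Z.card ≤ k).card * 2 ^ k := by
      refine card_biUnion_le_card_mul _ _ _ fun Z _ => ?_
      have h2 := (hs (top Z) fun v hv => htop1 Z v fun h => hv (hU' h)).1
      rw [Set.ncard_eq_toFinset_card'] at h2
      refine le_trans (le_of_eq ?_) h2
      congr 1
      ext y
      simp
    have h3 := card_small_subsets (M := 8 * C * C) (by nlinarith) U' hUc
    have h4 : C ≤ 2 ^ (C - 1) := by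
      have := Nat.lt_two_pow_self (n := C - 1)
      omega
    have h5 : 4 * (8 * C * C) * 2 ≤ 2 ^ (2 * C + 4) := by
      have e : 2 ^ (2 * C + 4) = 2 ^ 6 * (2 ^ (C - 1) * 2 ^ (C - 1)) := by
        rw [← pow_add, ← pow_add]
        congr 1
        omega
      rw [e]
      nlinarith [Nat.mul_le_mul h4 h4]
    calc Y'.card ≤ (4 * (8 * C * C)) ^ k * 2 ^ k := h1.trans (Nat.mul_le_mul_right _ h3)
      _ = (4 * (8 * C * C) * 2) ^ k := by rw [mul_pow (4 * (8 * C * C)) 2 k]
      _ ≤ (2 ^ (2 * C + 4)) ^ k := Nat.pow_le_pow_left h5 k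
      _ = 2 ^ ((2 * C + 4) * k) := by rw [← pow_mul]
  -- every relevant guess is in `Y'`
  have hrel : ∀ x ∈ A, ∃ y ∈ Y', ∃ Z : Finset (Fin n), Z ⊆ U' ∧ (∀ v ∈ Z, x v = false) ∧
      Z.card ≤ k ∧ D y (litsOn U' Z x) = true := by
    intro x hx
    obtain ⟨y, Z, hZ, hx0, hZk, hy⟩ := hacc x hx
    have hm := small2_mono (hD y)
    have hxρ := (hH1 x (hA hx)).2
    have h1 : D y (litsOn U' (Z ∩ U') x) = true := by
      have h2 : litsOn U Z x ≤ litsOn U' (Z ∩ U') x := by
        intro s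
        rcases s with v | v
        · exact le_rfl
        · simp only [litsOn, Sum.elim_inr]
          rw [Bool.le_iff_imp]
          intro h
          by_cases hv : v ∈ U'
          · rw [if_pos (hU' hv)] at h
            rw [if_pos hv]
            simp only [decide_eq_true_eq] at h ⊢
            exact mem_inter.2 ⟨h, hv⟩
          · rw [if_neg hv]
            by_cases hvU : v ∈ U
            · rw [if_pos hvU] at h
              simp only [decide_eq_true_eq] at h
              simp [hx0 v h]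
            · rw [if_neg hvU] at h
              exact h
      have h3 := hm h2
      rw [hy] at h3
      exact top_le_iff.1 h3
    refine ⟨y, ?_, Z ∩ U', inter_subset_right, fun v hv => hx0 v (mem_inter.1 hv).1,
      (card_le_card inter_subset_left).trans hZk, h1⟩
    refine mem_biUnion.2 ⟨Z ∩ U', mem_filter.2 ⟨mem_powerset.2 inter_subset_right,
      (card_le_card inter_subset_left).trans hZk⟩, mem_filter.2 ⟨mem_univ _, ?_⟩⟩
    have h4 : litsOn U' (Z ∩ U') x ≤ lits (top (Z ∩ U')) := by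
      intro s
      rcases s with v | v
      · simp only [litsOn, lits, Sum.elim_inl, htop]
        rw [Bool.le_iff_imp]
        intro h
        by_cases hv : v ∈ U'
        · rw [if_pos hv]
          simp only [decide_eq_true_eq, mem_inter, not_and]
          intro h5
          rw [hx0 v h5] at h
          exact absurd h (by simp)
        · rw [if_neg hv, ← hxρ v hv]
          exact h
      · simp only [litsOn, lits, Sum.elim_inr, htop]
        rw [Bool.le_iff_imp]
        intro h
        by_cases hv : v ∈ U'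
        · rw [if_pos hv] at h ⊢
          simp only [decide_eq_true_eq] at h
          simp [h]
        · rw [if_neg hv] at h ⊢
          rw [← hxρ v hv]
          exact h
    have h6 := hm h4
    rw [h1] at h6
    exact top_le_iff.1 h6
  rcases A.eq_empty_or_nonempty with hA0 | ⟨x0, hx0⟩
  · rw [hA0, card_empty, mul_zero]
    exact Nat.zero_le _
  obtain ⟨y0, hy0, -⟩ := hrel x0 hx0
  obtain ⟨g⟩ : Nonempty ({y // y ∈ Y'} ↪ (Fin ((2 * C + 4) * k) → Bool)) :=
    Function.Embedding.nonempty_of_card_le (by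
      rw [Fintype.card_coe, Fintype.card_fun, Fintype.card_bool, Fintype.card_fin]
      exact hcard)
  have : Nonempty {y // y ∈ Y'} := ⟨⟨y0, hy0⟩⟩
  have h7 := hmain' ((2 * C + 4) * k) (fun s => D (Function.invFun g s).1)
    (fun s => small2_le (by nlinarith) (hD _))
    (fun s x hx h => (hs x fun v hv => hx v fun h' => hv (hU' h')).2 _ h) A hA (by
      intro x hx
      obtain ⟨y, hy, Z, hZ, hx1, hZk, hacc1⟩ := hrel x hx
      refine ⟨g ⟨y, hy⟩, Z, hZ, hx1, ?_, ?_⟩
      · nlinarith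
      · have h8 : Function.invFun g (g ⟨y, hy⟩) = ⟨y, hy⟩ :=
          Function.leftInverse_invFun g.injective _
        simp only [h8]
        exact hacc1)
  refine le_trans (Nat.mul_le_mul_right _ (Nat.pow_le_pow_right (by norm_num) ?_)) h7
  nlinarith

end Pool.Agent.GE
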