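import Pool.Agent.GE.Poly
import Pool.Agent.EV3.Lang

set_option autoImplicit false

/-!
# The language with descriptions as a family of certificate questions
-/

namespace Pool.Agent.GE

open Finset Pool.Agent.PolyTime Pool.Agent.NegLim Pool.Agent.NXL Pool.Agent.EV3

/-- The parts `i + 1`, `i + 2` describe a set of positions of the part `i`. -/
def DA (n : ℕ) (x : ℕ → Bool) (i : ℕ) : Prop :=
  ∀ v < n / 3, x (prt n (i + 1) v) = true ∨ x (prt n (i + 2) v) = true

/-- The word is accepted without a certificate. -/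
def RA (n : ℕ) (x : ℕ → Bool) : Prop :=
  ∃ i < 3, DA n x i ∧ ∃ v < n / 3, x (prt n (i + 1) v) = true ∧ x (prt n (i + 2) v) = true

/-- The block `j` of the scale `N` of the part `i` is a list of equations. -/
def QA (n : ℕ) (x : ℕ → Bool) (i N j : ℕ) : Prop :=
  DA n x i ∧ ((N < rk n i x (n / 3) / 2 ∧ j < rk n i x (n / 3)) ∧
    ((N % 2 = 1 ∧ virt n i x N = true) ∧
      rk n i x (n / 3) / 2 + (j + 1) * (N * N * KK) ≤ rk n i x (n / 3)))

/-- The letters of the block. -/
noncomputable def XA (n : ℕ) (x : ℕ → Bool) (i N j a : ℕ) : Bool :=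
  virt n i x (rk n i x (n / 3) / 2 + j * (N * N * KK) + a)

lemma rk_le (n i : ℕ) (x : ℕ → Bool) (v : ℕ) : rk n i x v ≤ v := by
  unfold rk
  calc ∑ u ∈ range v, (if x (prt n (i + 2) u) = true then 1 else 0) ≤ ∑ _u ∈ range v, 1 :=
        Finset.sum_le_sum fun j _ => by split_ifs <;> omega
    _ = v := by simp

lemma ever_iff (n : ℕ) (x w : ℕ → Bool) : EVer n n x w ↔
    RA n x ∨ ∃ i < 3, ∃ N j, QA n x i N j ∧ Cert N (XA n x i N j) w := by
  constructor
  · rintro ⟨i, hi, h1, h2 | ⟨-, N, hN, j, hj, h3, h4, h5⟩⟩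
    · exact Or.inl ⟨i, hi, h1, h2⟩
    · exact Or.inr ⟨i, hi, N, j, ⟨h1, ⟨hN, hj⟩, h3, h4⟩, h5⟩
  · rintro (⟨i, hi, h1, h2⟩ | ⟨i, hi, N, j, ⟨h1, ⟨hN, hj⟩, h3, h4⟩, h5⟩)
    · exact ⟨i, hi, h1, Or.inl h2⟩
    · refine ⟨i, hi, h1, Or.inr ⟨?_, N, hN, j, hj, h3, h4, h5⟩⟩
      exact (rk_le _ _ _ _).trans (Nat.div_le_self _ _)

/-! ### One index -/

/-- The side for the index `t`. -/
def NT (n t : ℕ) : ℕ := if t < 3 * (n * n) then t / n % n else 1

/-- The condition for the index `t`. -/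
def QT (n : ℕ) (x : ℕ → Bool) (t : ℕ) : Prop :=
  (t < 3 * (n * n) ∧ QA n x (t / (n * n)) (t / n % n) (t % n)) ∨ (¬ t < 3 * (n * n) ∧ RA n x)

open Classical in
/-- The letters for the index `t`. -/
noncomputable def XT (n : ℕ) (x : ℕ → Bool) (t a : ℕ) : Bool :=
  decide (t < 3 * (n * n) → XA n x (t / (n * n)) (t / n % n) (t % n) a = true)

lemma xt_iff {n : ℕ} {x : ℕ → Bool} {t a : ℕ} : XT n x t a = true ↔
    (t < 3 * (n * n) → XA n x (t / (n * n)) (t / n % n) (t % n) a = true) := by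
  classical
  unfold XT
  exact decide_eq_true_iff

/-- The number of the letters is bounded. -/
lemma nt_le {n : ℕ} {x : ℕ → Bool} {t : ℕ} (h : QT n x t) :
    NT n t * NT n t * KK ≤ n + KK := by
  unfold NT
  rcases h with ⟨h1, -, -, -, h4⟩ | ⟨h1, -⟩
  · rw [if_pos h1]
    have h5 := rk_le n (t / (n * n)) x (n / 3)
    have h6 : n / 3 ≤ n := Nat.div_le_self _ _
    have h7 : (t % n + 1) * (t / n % n * (t / n % n) * KK) =
        t % n * (t / n % n * (t / n % n) * KK) + t / n % n * (t / n % n) * KK := by ring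
    omega
  · rw [if_neg h1]
    omega

/-- A certificate for a single vertex. -/
lemma cert_one (x : ℕ → Bool) (hx : x 0 = true) : Cert 1 x fun a => decide (a = 0) := by
  have hK := KK_pos
  refine ⟨fun a _ ha => ?_, ?_, fun g _ t _ => ?_⟩
  · have : a = 0 := by simpa using ha
    rw [this]
    exact hx
  · rw [Finset.sum_eq_single_of_mem 0 (mem_range.mpr (by omega)) fun b _ hb => by simp [hb]]
    simp
  · have h0 : ∀ a c : ℕ, (if decide (a = 0) = true ∧ eN 1 (a / KK) c = g ∧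
        (a % KK).testBit (24 * c + t) = true then 1 else 0) = 0 := by
      intro a c
      rw [if_neg]
      rintro ⟨h1, -, h2⟩
      have h3 : a = 0 := by simpa using h1
      rw [h3] at h2
      simp at h2
    simp only [h0, Finset.sum_const_zero, Nat.zero_mod]

lemma cert_congrX {N : ℕ} {x x' w : ℕ → Bool} (h : ∀ a, x a = true ↔ x' a = true) :
    Cert N x w ↔ Cert N x' w :=
  ⟨cert_mono fun a _ => (h a).mp, cert_mono fun a _ => (h a).mpr⟩

lemma family_iff (n : ℕ) (x : ℕ → Bool) : (∃ w, EVer n n x w) ↔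
    ∃ t < 3 * (n * n) + 1, QT n x t ∧ ∃ w, Cert (NT n t) (XT n x t) w := by
  constructor
  · rintro ⟨w, hw⟩
    rw [ever_iff] at hw
    rcases hw with h | ⟨i, hi, N, j, hQ, hC⟩
    · refine ⟨3 * (n * n), Nat.lt_succ_self _, Or.inr ⟨lt_irrefl _, h⟩,
        fun a => decide (a = 0), ?_⟩
      unfold NT
      rw [if_neg (lt_irrefl _)]
      exact cert_one _ (xt_iff.mpr fun h => absurd h (lt_irrefl _))
    · have hm := rk_le n i x (n / 3)
      have hn : n / 3 ≤ n := Nat.div_le_self _ _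
      obtain ⟨-, ⟨h1, h2⟩, -, -⟩ := id hQ
      have hN : N < n := by omega
      have hj : j < n := by omega
      have hn0 : 0 < n := by omega
      have h3 : N * n + j < n * n := by
        calc N * n + j < N * n + n := by omega
          _ = (N + 1) * n := by ring
          _ ≤ n * n := Nat.mul_le_mul_right _ hN
      have ht : i * (n * n) + (N * n + j) < 3 * (n * n) := by
        calc i * (n * n) + (N * n + j) < i * (n * n) + n * n := by omega
          _ = (i + 1) * (n * n) := by ring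
          _ ≤ 3 * (n * n) := Nat.mul_le_mul_right _ hi
      have e1 : (i * (n * n) + (N * n + j)) / (n * n) = i := by
        rw [mul_comm i, Nat.mul_add_div (Nat.mul_pos hn0 hn0), Nat.div_eq_of_lt h3, add_zero]
      have e0 : i * (n * n) + (N * n + j) = n * (i * n + N) + j := by ring
      have e2 : (i * (n * n) + (N * n + j)) / n % n = N := by
        rw [e0, Nat.mul_add_div hn0, Nat.div_eq_of_lt hj, add_zero, mul_comm i,
          Nat.mul_add_mod, Nat.mod_eq_of_lt hN]
      have e3 : (i * (n * n) + (N * n + j)) % n = j := by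
        rw [e0, Nat.mul_add_mod, Nat.mod_eq_of_lt hj]
      refine ⟨i * (n * n) + (N * n + j), by omega, Or.inl ⟨ht, ?_⟩, w, ?_⟩
      · rw [e1, e2, e3]
        exact hQ
      · unfold NT
        rw [if_pos ht, e2]
        refine (cert_congrX fun a => ?_).mpr hC
        rw [xt_iff, e1, e2, e3]
        exact ⟨fun h => h ht, fun h _ => h⟩
  · rintro ⟨t, ht, hQ, w, hC⟩
    rcases hQ with ⟨h1, hQ⟩ | ⟨h1, hR⟩
    · refine ⟨w, (ever_iff n x w).mpr (Or.inr ⟨t / (n * n), ?_, t / n % n, t % n, hQ, ?_⟩)⟩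
      · exact Nat.div_lt_of_lt_mul (by rwa [mul_comm] at h1)
      · unfold NT at hC
        rw [if_pos h1] at hC
        refine (cert_congrX fun a => ?_).mpr hC
        rw [xt_iff]
        exact ⟨fun h _ => h, fun h => h h1⟩
    · exact ⟨w, (ever_iff n x w).mpr (Or.inl hR)⟩

/-! ### Polynomial time -/

section

variable {α : Type} [Ctx α]

lemma pd_da {N I : List Bool → α → ℕ} {X : List Bool → α → ℕ → Bool} (hN : PF N) (hI : PF I)
    (hX : PD (fun y (p : α × ℕ) => X y p.1 p.2 = true)) :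
    PD (fun y a => DA (N y a) (X y a) (I y a)) := by
  refine PD.forall_lt (P := fun y (p : α × ℕ) =>
    X y p.1 (prt (N y p.1) (I y p.1 + 1) p.2) = true ∨
      X y p.1 (prt (N y p.1) (I y p.1 + 2) p.2) = true) (hN.div (PF.const 3)) ?_
  exact (PD.sub1 (Proj.id.fst) (pf_prt hN.fst (hI.fst.add (PF.const 1)) PF.snd) hX).or
    (PD.sub1 (Proj.id.fst) (pf_prt hN.fst (hI.fst.add (PF.const 2)) PF.snd) hX)

lemma pd_ra {N : List Bool → α → ℕ} {X : List Bool → α → ℕ → Bool} (hN : PF N)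
    (hX : PD (fun y (p : α × ℕ) => X y p.1 p.2 = true)) :
    PD (fun y a => RA (N y a) (X y a)) := by
  have hX2 : PD (fun y (p : (α × ℕ) × ℕ) => X y p.1.1 p.2 = true) :=
    PD.sub1 (Proj.id.fst.fst) PF.snd hX
  refine PD.exists_lt (B := fun _ _ => 3) (P := fun y (p : α × ℕ) => DA (N y p.1) (X y p.1) p.2 ∧
    ∃ v < N y p.1 / 3, X y p.1 (prt (N y p.1) (p.2 + 1) v) = true ∧
      X y p.1 (prt (N y p.1) (p.2 + 2) v) = true) (PF.const 3) ?_
  refine (pd_da (X := fun y (p : α × ℕ) => X y p.1) hN.fst PF.snd hX2).and ?_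
  refine PD.exists_lt (P := fun y (p : (α × ℕ) × ℕ) =>
    X y p.1.1 (prt (N y p.1.1) (p.1.2 + 1) p.2) = true ∧
      X y p.1.1 (prt (N y p.1.1) (p.1.2 + 2) p.2) = true) (hN.div (PF.const 3)).fst ?_
  exact (PD.sub1 (Proj.id.fst.fst) (pf_prt hN.fst.fst (PF.snd.fst.add (PF.const 1)) PF.snd)
    hX).and (PD.sub1 (Proj.id.fst.fst) (pf_prt hN.fst.fst (PF.snd.fst.add (PF.const 2)) PF.snd)
    hX)

lemma pd_virt {N I A : List Bool → α → ℕ} {X : List Bool → α → ℕ → Bool} (hN : PF N) (hI : PF I)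
    (hA : PF A) (hX : PD (fun y (p : α × ℕ) => X y p.1 p.2 = true)) :
    PD (fun y a => virt (N y a) (I y a) (X y a) (A y a) = true) :=
  (pd_sel hN hI hA hX).congr fun _ _ => virt_iff.symm

lemma pd_qa {N I S J : List Bool → α → ℕ} {X : List Bool → α → ℕ → Bool} (hN : PF N)
    (hI : PF I) (hS : PF S) (hJ : PF J) (hX : PD (fun y (p : α × ℕ) => X y p.1 p.2 = true)) :
    PD (fun y a => QA (N y a) (X y a) (I y a) (S y a) (J y a)) := by
  have hr : PF (fun y a => rk (N y a) (I y a) (X y a) (N y a / 3)) :=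
    pf_rk hN hI (hN.div (PF.const 3)) hX
  exact (pd_da hN hI hX).and (((PD.lt hS (hr.div (PF.const 2))).and (PD.lt hJ hr)).and
    (((PD.eq (hS.mod (PF.const 2)) (PF.const 1)).and (pd_virt hN hI hS hX)).and
      (PD.le ((hr.div (PF.const 2)).add ((hJ.add (PF.const 1)).mul ((hS.mul hS).mul
        (PF.const KK)))) hr)))

lemma pd_xa {N I S J A : List Bool → α → ℕ} {X : List Bool → α → ℕ → Bool} (hN : PF N)
    (hI : PF I) (hS : PF S) (hJ : PF J) (hA : PF A)
    (hX : PD (fun y (p : α × ℕ) => X y p.1 p.2 = true)) :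
    PD (fun y a => XA (N y a) (X y a) (I y a) (S y a) (J y a) (A y a) = true) := by
  have hr : PF (fun y a => rk (N y a) (I y a) (X y a) (N y a / 3)) :=
    pf_rk hN hI (hN.div (PF.const 3)) hX
  exact pd_virt hN hI (((hr.div (PF.const 2)).add (hJ.mul ((hS.mul hS).mul (PF.const KK)))).add
    hA) hX

lemma pf_nt {N T : List Bool → α → ℕ} (hN : PF N) (hT : PF T) :
    PF (fun y a => NT (N y a) (T y a)) :=
  PF.ite (PD.lt hT ((PF.const 3).mul (hN.mul hN))) ((hT.div hN).mod hN) (PF.const 1)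

lemma pd_qt {N T : List Bool → α → ℕ} {X : List Bool → α → ℕ → Bool} (hN : PF N) (hT : PF T)
    (hX : PD (fun y (p : α × ℕ) => X y p.1 p.2 = true)) :
    PD (fun y a => QT (N y a) (X y a) (T y a)) := by
  have h1 : PD (fun y a => T y a < 3 * (N y a * N y a)) :=
    PD.lt hT ((PF.const 3).mul (hN.mul hN))
  exact (h1.and (pd_qa hN (hT.div (hN.mul hN)) ((hT.div hN).mod hN) (hT.mod hN) hX)).or
    (h1.not.and (pd_ra hN hX))

lemma pd_xt {N T A : List Bool → α → ℕ} {X : List Bool → α → ℕ → Bool} (hN : PF N) (hT : PF T)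
    (hA : PF A) (hX : PD (fun y (p : α × ℕ) => X y p.1 p.2 = true)) :
    PD (fun y a => XT (N y a) (X y a) (T y a) (A y a) = true) := by
  have h1 : PD (fun y a => T y a < 3 * (N y a * N y a)) :=
    PD.lt hT ((PF.const 3).mul (hN.mul hN))
  exact (pd_imp h1 (pd_xa hN (hT.div (hN.mul hN)) ((hT.div hN).mod hN) (hT.mod hN) hA hX)).congr
    fun _ _ => xt_iff.symm

end

end Pool.Agent.GE
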