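import Pool.Agent.GE.Defs
import Pool.Agent.GE.LangP
import Pool.Agent.GE.Cert
import Pool.Agent.EV.MainE
import Pool.Agent.EV.MainB

set_option autoImplicit false

/-!
# A monotone language in P: small devices must see many zeros in every set of positions and need many
NOT gates inside every set of positions
-/

namespace Pool.Agent.GE

open Finset Pool.Agent.PolyTime Pool.Agent.NegLim Pool.Agent.XL Pool.Agent.NWE Pool.Agent.NXL
  Pool.Agent.NTR Pool.Agent.NTN Pool.Agent.TeleNeg Pool.Agent.EV Turing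
open scoped BigOperators

/-- **The language is in P.** -/
theorem elang_inP : InP (EV3.elang 1) := by
  classical
  have hX : ∀ (α : Type) [Ctx α], PD (fun (y : List Bool) (p : α × ℕ) =>
      (fun i => y.getD i false) p.2 = true) := fun α _ => PD.bit PF.snd
  have h := cert_polyTime (T := fun y => 3 * (y.length * y.length) + 1)
    (K := fun y => y.length + KK) (N := fun y t => NT y.length t)
    (Q := fun y t => QT y.length (fun i => y.getD i false) t)
    (X := fun y t a => XT y.length (fun i => y.getD i false) t a)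
    (((PF.const 3).mul (PF.len.mul PF.len)).add (PF.const 1)) (PF.len.add (PF.const KK))
    (pf_nt PF.len PF.snd)
    (pd_qt (X := fun y (_ : Unit × ℕ) i => y.getD i false) PF.len PF.snd (hX _))
    (pd_xt (X := fun y (_ : (Unit × ℕ) × ℕ) i => y.getD i false) PF.len PF.snd.fst PF.snd (hX _))
    (fun y t _ hQ => nt_le hQ)
  unfold InP
  have e : (fun x : List Bool => [EV3.elang 1 x]) = fun y => [decide (∃ t <
      3 * (y.length * y.length) + 1, QT y.length (fun i => y.getD i false) t ∧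
        ∃ w, Cert (NT y.length t) (XT y.length (fun i => y.getD i false) t) w)] := by
    funext x
    congr 1
    rw [Bool.eq_iff_iff, EV3.elang_iff, decide_eq_true_iff, Nat.div_one, family_iff]
  rw [e]
  exact h

/-- **Every set of positions, language in P.** -/
theorem main_everyP : ∃ (C : ℕ) (L : List Bool → Bool), 1 ≤ C ∧ InP L ∧
    (∀ n : ℕ, Monotone fun x : Fin n → Bool => L (List.ofFn x)) ∧
    ∀ (n k : ℕ) (U : Finset (Fin n)), 1 ≤ k → C * k ≤ U.card →
      ∃ (ρ : Fin n → Bool) (H : Finset (Fin n → Bool)), H.Nonempty ∧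
        (∀ x ∈ H, L (List.ofFn x) = true ∧ ∀ v, v ∉ U → x v = ρ v) ∧
        ∀ (t : ℕ) (D : (Fin t → Bool) → (Fin n ⊕ Fin n → Bool) → Bool),
          (∀ y, Small2 k (D y)) →
          (∀ y x, (∀ v, v ∉ U → x v = ρ v) → D y (lits x) = true → L (List.ofFn x) = true) →
          ∀ A ⊆ H, (∀ x ∈ A, ∃ (y : Fin t → Bool) (Z : Finset (Fin n)), Z ⊆ U ∧
            (∀ v ∈ Z, x v = false) ∧ t + Z.card ≤ k ∧ D y (litsOn U Z x) = true) →
          2 ^ k * A.card ≤ H.card := by
  refine ⟨CE 1, EV3.elang 1, CE_pos 1, elang_inP, EV3.elang_mono 1,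
    fun n k U hk hU => every_of hk U ?_⟩
  have h1 : CE 1 * k = (1 + 5) * EV.mk k := by
    unfold CE EV.mk
    ring
  have h2 := mk_pos hk
  have h3 : EV.mk k ≤ n / 1 := (CE_room le_rfl hk U hU).2
  have h4 : 3 * EV.mk k + 3 ≤ U.card := by omega
  obtain ⟨φ, e1, e2, -, e4⟩ := EV3.elang_restrict 1 n (EV.mk k) U h4 h3
  exact ⟨φ, e1, e2, e4⟩

open Classical in
/-- **Few NOT gates, few changes of the answers to monotone queries inside a set of positions,
language in P.** -/
theorem not_gates_everyP :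
    ∃ (C : ℕ) (L : List Bool → Bool), 1 ≤ C ∧ InP L ∧
      (∀ n : ℕ, Monotone fun x : Fin n → Bool => L (List.ofFn x)) ∧
      ∀ (n k : ℕ) (U : Finset (Fin n)), U.Nonempty → 1 ≤ k →
        ∃ (ρ : Fin n → Bool) (μ : (Fin n → Bool) → ℝ), (∀ x, 0 ≤ μ x) ∧ ∑ x, μ x = 1 ∧
          (∀ x, μ x ≠ 0 → ∀ v, v ∉ U → x v = ρ v) ∧
          (∀ (t : ℕ) (A : (Fin n → Bool) → Bool), t < 2 ^ k → NotGatesOn (devClass k) U t A →
            ∑ x with A x = L (List.ofFn x), μ x
              ≤ 1 / 2 + (1 / 2) ^ k + 2 ^ t * (C * k) / U.card) ∧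
          ∀ (ts : List ℕ) (b : ℕ) (A : (Fin n → Bool) → Bool), ts.sum < 2 ^ k →
            Tries (devClass k) U ts 1 b A →
            ∑ x with A x = L (List.ofFn x), μ x
              ≤ 1 / 2 + (1 / 2) ^ k + b * (C * k) / U.card := by
  refine ⟨2 * CB 1, EV3.elang 1, ?_, elang_inP, EV3.elang_mono 1, fun n k U hU hk => ?_⟩
  · have := CB_pos 1
    omega
  obtain ⟨ρ, μ, m1, m2, m3, m4⟩ := elang_average (n := n) (d := 1) le_rfl hk U hU
  have key : ∀ (ts : List ℕ) (b : ℕ) (A : (Fin n → Bool) → Bool), ts.sum < 2 ^ k →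
      Tries (devClass k) U ts 1 b A →
      ∑ x with A x = EV3.elang 1 (List.ofFn x), μ x
        ≤ 1 / 2 + (1 / 2) ^ k + b * ((2 * CB 1 : ℕ) * k) / U.card := by
    intro ts b A hts hA
    refine (m4 ts 1 b A hts hA).trans (le_of_eq ?_)
    generalize CB 1 = e
    push_cast
    ring
  refine ⟨ρ, μ, m1, m2, m3, fun t A ht hA => ?_, key⟩
  obtain ⟨B, hB, hAB⟩ := hA.fix ρ
  obtain ⟨ts, b, h1, h2, h3⟩ := hB.tries U
  have h0 : ∑ x with A x = EV3.elang 1 (List.ofFn x), μ x
      = ∑ x with B x = EV3.elang 1 (List.ofFn x), μ x := by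
    rw [Finset.sum_filter, Finset.sum_filter]
    refine Finset.sum_congr rfl fun x _ => ?_
    by_cases hx : μ x = 0
    · simp [hx]
    · rw [hAB x (m3 x hx)]
  rw [h0]
  refine (key ts b B (by rw [h1]; exact ht) h3).trans ?_
  have h4 : (b : ℝ) ≤ 2 ^ t := by exact_mod_cast h2
  have h5 : (0 : ℝ) ≤ (2 * CB 1 : ℕ) * k := by positivity
  have h6 : (0 : ℝ) ≤ (U.card : ℝ) := by positivity
  have h7 : (b : ℝ) * ((2 * CB 1 : ℕ) * k) / U.card ≤ 2 ^ t * ((2 * CB 1 : ℕ) * k) / U.card :=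
    div_le_div_of_nonneg_right (mul_le_mul_of_nonneg_right h4 h5) h6
  linarith

end Pool.Agent.GE
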