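import Pool.Agent.GE.Core

set_option autoImplicit false

/-!
# Inconsistency of linear equations is decidable in polynomial time
-/

namespace Pool.Agent.GE

open Finset Pool.Agent.PolyTime Turing

/-! ### States -/

/-- The entry of a word read as a square matrix. -/
def ent (D : ℕ) (y : List Bool) (r c : ℕ) : Bool := y.getD (r * D + c) false

open Classical in
/-- The word with the letters given by a property. -/
noncomputable def mkw (n : ℕ) (P : ℕ → Prop) : List Bool :=
  (List.range n).map fun i => decide (P i)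

lemma length_mkw (n : ℕ) (P : ℕ → Prop) : (mkw n P).length = n := by
  unfold mkw
  rw [List.length_map, List.length_range]

lemma getD_mkw {n i : ℕ} (P : ℕ → Prop) (hi : i < n) : (mkw n P).getD i false = true ↔ P i := by
  classical
  unfold mkw
  rw [List.getD_eq_getElem _ _ (by rw [List.length_map, List.length_range]; exact hi),
    List.getElem_map, List.getElem_range, decide_eq_true_iff]

lemma idx {D r c : ℕ} (hr : r < D) (hc : c < D) :
    r * D + c < D * D ∧ (r * D + c) / D = r ∧ (r * D + c) % D = c := by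
  have hD : 0 < D := by omega
  refine ⟨?_, ?_, ?_⟩
  · calc r * D + c < r * D + D := by omega
      _ = (r + 1) * D := by ring
      _ ≤ D * D := Nat.mul_le_mul_right _ hr
  · rw [mul_comm, Nat.mul_add_div hD, Nat.div_eq_of_lt hc, add_zero]
  · rw [mul_comm, Nat.mul_add_mod, Nat.mod_eq_of_lt hc]

/-- The next state. -/
noncomputable def nxt (y : List Bool) : List Bool :=
  mkw y.length fun i => NB (Nat.sqrt y.length) (ent (Nat.sqrt y.length) y)
    (i / Nat.sqrt y.length) (i % Nat.sqrt y.length)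

lemma length_nxt (y : List Bool) : (nxt y).length = y.length := length_mkw _ _

lemma length_iter (k : ℕ) (y : List Bool) : (nxt^[k] y).length = y.length := by
  induction k generalizing y with
  | zero => rfl
  | succ k ih => rw [Function.iterate_succ_apply, ih, length_nxt]

lemma ent_nxt {D : ℕ} {y : List Bool} (hy : y.length = D * D) {r c : ℕ} (hr : r < D)
    (hc : c < D) : ent D (nxt y) r c = true ↔ NB D (ent D y) r c := by
  obtain ⟨h1, h2, h3⟩ := idx hr hc
  have hs : Nat.sqrt y.length = D := by rw [hy, Nat.sqrt_eq]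
  unfold ent nxt
  rw [getD_mkw _ (by rw [hy]; exact h1), hs, h2, h3]
  rfl

lemma iter_spec {D : ℕ} {y : List Bool} (hy : y.length = D * D) (k : ℕ) :
    (Inc D (ent D (nxt^[k] y)) ↔ Inc D (ent D y)) ∧ nz D (ent D (nxt^[k] y)) ≤ D - k := by
  induction k with
  | zero =>
    refine ⟨Iff.rfl, ?_⟩
    unfold nz
    refine (Finset.card_filter_le _ _).trans ?_
    rw [card_range]
    exact le_rfl
  | succ k ih =>
    rw [Function.iterate_succ_apply']
    obtain ⟨h1, h2⟩ := step_spec (D := D) (M := ent D (nxt^[k] y)) (M' := ent D (nxt (nxt^[k] y)))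
      fun r hr c hc => ent_nxt (by rw [length_iter, hy]) hr hc
    exact ⟨h1.trans ih.1, by omega⟩

lemma final_spec {D : ℕ} (hD : 0 < D) {y : List Bool} (hy : y.length = D * D) :
    Inc D (ent D y) ↔ ∃ r < D, ent D (nxt^[D] y) r 0 = true := by
  obtain ⟨h1, h2⟩ := iter_spec hy D
  rw [← h1]
  exact inc_of_nz hD (by omega)

/-! ### Polynomial time -/

section

variable {α : Type} [Ctx α]

lemma pd_imp {P Q : List Bool → α → Prop} (hP : PD P) (hQ : PD Q) :
    PD (fun y a => P y a → Q y a) :=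
  (hP.not.or hQ).congr fun y a => by tauto

lemma pd_piv {D J P : List Bool → α → ℕ} {M : List Bool → α → ℕ → ℕ → Bool} (hD : PF D)
    (hJ : PF J) (hP : PF P) (hM : PD (fun y (p : (α × ℕ) × ℕ) => M y p.1.1 p.1.2 p.2 = true)) :
    PD (fun y a => Piv (D y a) (M y a) (J y a) (P y a)) := by
  unfold Piv
  refine ((PD.le (PF.const 1) hJ).and (PD.sub2 Proj.id hP hJ hM)).and (PD.and ?_ ?_)
  · refine PD.forall_lt (P := fun y (p : α × ℕ) => ∀ c < D y p.1, 1 ≤ c → M y p.1 p.2 c = false)
      hP ?_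
    refine PD.forall_lt (P := fun y (p : (α × ℕ) × ℕ) => 1 ≤ p.2 → M y p.1.1 p.1.2 p.2 = false)
      hD.fst ?_
    exact pd_imp (PD.le (PF.const 1) PF.snd) (hM.not.congr fun y p => by simp)
  · refine PD.forall_lt (P := fun y (p : α × ℕ) => 1 ≤ p.2 → M y p.1 (P y p.1) p.2 = false) hJ ?_
    refine pd_imp (PD.le (PF.const 1) PF.snd) ?_
    exact (PD.sub2 (Proj.id.fst) hP.fst PF.snd hM).not.congr fun y p => by simp

lemma pd_elim {J P R C : List Bool → α → ℕ} {M : List Bool → α → ℕ → ℕ → Bool}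
    (hJ : PF J) (hP : PF P) (hR : PF R) (hC : PF C)
    (hM : PD (fun y (p : (α × ℕ) × ℕ) => M y p.1.1 p.1.2 p.2 = true)) :
    PD (fun y a => elim (M y a) (J y a) (P y a) (R y a) (C y a) = true) := by
  have h1 : PD (fun y a => M y a (R y a) (C y a) = true) := PD.sub2 Proj.id hR hC hM
  have h2 : PD (fun y a => M y a (R y a) (J y a) = true) := PD.sub2 Proj.id hR hJ hM
  have h3 : PD (fun y a => M y a (P y a) (C y a) = true) := PD.sub2 Proj.id hP hC hM
  refine ((PD.eq hR hP).not.and ((h1.and (h2.and h3).not).or (h1.not.and (h2.and h3)))).congr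
    fun y a => ?_
  unfold elim
  by_cases h : R y a = P y a
  · simp [h]
  · rw [if_neg h]
    cases M y a (R y a) (C y a) <;> cases M y a (R y a) (J y a) <;>
      cases M y a (P y a) (C y a) <;> simp [h]

lemma pd_nb {D R C : List Bool → α → ℕ} {M : List Bool → α → ℕ → ℕ → Bool} (hD : PF D)
    (hR : PF R) (hC : PF C) (hM : PD (fun y (p : (α × ℕ) × ℕ) => M y p.1.1 p.1.2 p.2 = true)) :
    PD (fun y a => NB (D y a) (M y a) (R y a) (C y a)) := by
  have hM2 : PD (fun y (p : (((α × ℕ) × ℕ) × ℕ) × ℕ) => M y p.1.1.1.1 p.1.2 p.2 = true) :=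
    PD.sub2 (Proj.id.fst.fst.fst.fst) PF.snd.fst PF.snd hM
  have hp : PD (fun y (p : (α × ℕ) × ℕ) => Piv (D y p.1.1) (M y p.1.1) p.1.2 p.2) :=
    pd_piv (M := fun y (p : (α × ℕ) × ℕ) => M y p.1.1) hD.fst.fst PF.snd.fst PF.snd hM2
  unfold NB
  refine PD.or ?_ ((PD.exists_lt (P := fun y (p : α × ℕ) => ∃ q < D y p.1,
    Piv (D y p.1) (M y p.1) p.2 q) hD (PD.exists_lt (P := fun y (p : (α × ℕ) × ℕ) =>
      Piv (D y p.1.1) (M y p.1.1) p.1.2 p.2) hD.fst hp)).not.and (PD.sub2 Proj.id hR hC hM))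
  refine PD.exists_lt (P := fun y (p : α × ℕ) => ∃ q < D y p.1,
    Piv (D y p.1) (M y p.1) p.2 q ∧ elim (M y p.1) p.2 q (R y p.1) (C y p.1) = true) hD ?_
  refine PD.exists_lt (P := fun y (p : (α × ℕ) × ℕ) => Piv (D y p.1.1) (M y p.1.1) p.1.2 p.2 ∧
    elim (M y p.1.1) p.1.2 p.2 (R y p.1.1) (C y p.1.1) = true) hD.fst ?_
  exact hp.and (pd_elim (M := fun y (p : (α × ℕ) × ℕ) => M y p.1.1) PF.snd.fst PF.snd
    hR.fst.fst hC.fst.fst hM2)

lemma pd_ent {D R C : List Bool → α → ℕ} (hD : PF D) (hR : PF R) (hC : PF C) :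
    PD (fun y a => ent (D y a) y (R y a) (C y a) = true) :=
  PD.bit ((hR.mul hD).add hC)

end

lemma pfbits_mkw {L : List Bool → ℕ} {P : List Bool → ℕ → Prop}
    (hL : PF (fun y (_ : Unit) => L y)) (hP : PD (fun y (p : Unit × ℕ) => P y p.2)) :
    PFBits fun y => mkw (L y) (P y) := by
  classical
  obtain ⟨F, hF, hPF⟩ := hP
  refine ⟨L, fun y i => F y ((), i), hL, hF.congr fun _ _ => rfl, fun y => ?_⟩
  unfold mkw
  refine List.map_congr_left fun i _ => ?_
  exact decide_eq_decide.mpr (hPF y ((), i))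

lemma pfbits_nxt : PFBits nxt := by
  refine pfbits_mkw (L := fun y => y.length) (P := fun y i =>
    NB (Nat.sqrt y.length) (ent (Nat.sqrt y.length) y) (i / Nat.sqrt y.length)
      (i % Nat.sqrt y.length)) PF.len ?_
  exact pd_nb (M := fun y (_ : Unit × ℕ) => ent (Nat.sqrt y.length) y) PF.len.sqrt
    (PF.snd.div PF.len.sqrt) (PF.snd.mod PF.len.sqrt) (pd_ent PF.len.sqrt PF.snd.fst PF.snd)

open Classical in
/-- **Inconsistency of a system of linear equations over the field with two elements, given by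
expressions, is decidable in polynomial time.** -/
theorem gauss_polyTime {D : List Bool → ℕ} {E : List Bool → ℕ → ℕ → Bool}
    (hD : PF (fun y (_ : Unit) => D y))
    (hE : PD (fun y (p : (Unit × ℕ) × ℕ) => E y p.1.2 p.2 = true)) (hD1 : ∀ y, 0 < D y) :
    Nonempty (TM2ComputableInPolyTime (id : List Bool → List Bool)
      (id : List Bool → List Bool) fun y => [decide (Inc (D y) (E y))]) := by
  -- the first state
  have h1 : PC fun y => mkw (D y * D y) fun i => E y (i / D y) (i % D y) = true := by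
    refine (pfbits_mkw (L := fun y => D y * D y)
      (P := fun y i => E y (i / D y) (i % D y) = true) (hD.mul hD) ?_).pc
    have hD' : PF (fun y (_ : Unit × ℕ) => D y) := hD.fst
    exact PD.sub2 (Proj.id.fst) (PF.snd.div hD') (PF.snd.mod hD') hE
  have h2 : PC fun y => nxt^[Nat.sqrt y.length] y :=
    pfbits_nxt.iterate (fun y => (length_nxt y).le) (PF.len.sqrt)
  have h3 : PC fun y => mkw 1 fun _ => ∃ r < Nat.sqrt y.length,
      ent (Nat.sqrt y.length) y r 0 = true := by
    refine (pfbits_mkw (L := fun _ => 1) (P := fun y _ => ∃ r < Nat.sqrt y.length,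
      ent (Nat.sqrt y.length) y r 0 = true) (PF.const 1) ?_).pc
    exact PD.exists_lt (P := fun y (p : (Unit × ℕ) × ℕ) =>
      ent (Nat.sqrt y.length) y p.2 0 = true) PF.len.sqrt
      (pd_ent PF.len.sqrt PF.snd (PF.const 0))
  refine ((h3.comp (h2.comp h1)).congr fun y => ?_).polyTime
  set z := mkw (D y * D y) fun i => E y (i / D y) (i % D y) = true with hz
  have hzl : z.length = D y * D y := length_mkw _ _
  have hs : Nat.sqrt z.length = D y := by rw [hzl, Nat.sqrt_eq]
  have e1 : Inc (D y) (E y) ↔ Inc (D y) (ent (D y) z) := by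
    refine inc_congr fun r hr c hc => ?_
    obtain ⟨i1, i2, i3⟩ := idx hr hc
    rw [Bool.eq_iff_iff]
    unfold ent
    rw [hz, getD_mkw _ i1, i2, i3]
  have e2 : (∃ r < Nat.sqrt (nxt^[Nat.sqrt z.length] z).length,
      ent (Nat.sqrt (nxt^[Nat.sqrt z.length] z).length) (nxt^[Nat.sqrt z.length] z) r 0 = true) ↔
      Inc (D y) (E y) := by
    rw [length_iter, hs, e1]
    exact (final_spec (hD1 y) hzl).symm
  unfold mkw
  rw [List.range_one, List.map_cons, List.map_nil]
  exact congrArg (fun b => [b]) (decide_eq_decide.mpr e2)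

end Pool.Agent.GE
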