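import Pool.Agent.GE.Poly
import Pool.Agent.XL.Sharp

set_option autoImplicit false

/-!
# Inconsistency of linear equations with three unknowns is decidable in polynomial time
-/

namespace Pool.Agent.GE

open Finset Pool.Agent.PolyTime Pool.Agent.XL Turing

/-- The equation with number `i < 2 (n + 1) ^ 3`: its right side is `i % 2`, its unknowns are those
of the three digits `a`, `b`, `c` of `i / 2` to the base `n + 1` which are less than `n`. -/
def eqAt (n i : ℕ) : Eq3 n :=
  (⟨univ.filter fun j : Fin n => (j : ℕ) = i / 2 / (n + 1) / (n + 1) ∨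
      (j : ℕ) = i / 2 / (n + 1) % (n + 1) ∨ (j : ℕ) = i / 2 % (n + 1), by
    have h1 : ∀ a : ℕ, (univ.filter fun j : Fin n => (j : ℕ) = a).card ≤ 1 := by
      intro a
      refine card_le_one.2 fun i hi j hj => ?_
      rw [mem_filter] at hi hj
      exact Fin.ext (hi.2.trans hj.2.symm)
    rw [filter_or, filter_or]
    refine (card_union_le _ _).trans ?_
    have h2 := card_union_le
      (univ.filter fun j : Fin n => (j : ℕ) = i / 2 / (n + 1) % (n + 1))
      (univ.filter fun j : Fin n => (j : ℕ) = i / 2 % (n + 1))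
    have h3 := h1 (i / 2 / (n + 1) / (n + 1))
    have h4 := h1 (i / 2 / (n + 1) % (n + 1))
    have h5 := h1 (i / 2 % (n + 1))
    omega⟩, decide (i % 2 = 1))

/-- The system as a word: the letter with number `i` tells whether the equation with number `i`
belongs to the system. -/
def enc {n : ℕ} (z : Eq3 n → Bool) : List Bool :=
  (List.range (2 * (n + 1) ^ 3)).map fun i => z (eqAt n i)

/-- The number of the equation. -/
lemma eqAt_surj (n : ℕ) (e : Eq3 n) : ∃ i < 2 * (n + 1) ^ 3, eqAt n i = e := by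
  classical
  obtain ⟨⟨s, hs⟩, b⟩ := e
  -- three numbers at most n which contain the elements of s
  obtain ⟨x, y, w, hx, hy, hw, h⟩ : ∃ x y w : ℕ, x ≤ n ∧ y ≤ n ∧ w ≤ n ∧
      ∀ j : Fin n, j ∈ s ↔ ((j : ℕ) = x ∨ (j : ℕ) = y ∨ (j : ℕ) = w) := by
    rcases (by omega : s.card = 0 ∨ s.card = 1 ∨ s.card = 2 ∨ s.card = 3) with h | h | h | h
    · rw [card_eq_zero] at h
      subst h
      exact ⟨n, n, n, le_rfl, le_rfl, le_rfl, fun j => by
        have := j.2
        simp only [notMem_empty, false_iff]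
        omega⟩
    · obtain ⟨a, rfl⟩ := card_eq_one.1 h
      exact ⟨a, a, a, a.2.le, a.2.le, a.2.le, fun j => by
        rw [mem_singleton, Fin.ext_iff]
        omega⟩
    · obtain ⟨a, c, -, rfl⟩ := card_eq_two.1 h
      exact ⟨a, c, c, a.2.le, c.2.le, c.2.le, fun j => by
        rw [mem_insert, mem_singleton, Fin.ext_iff, Fin.ext_iff]
        omega⟩
    · obtain ⟨a, c, d, -, -, -, rfl⟩ := card_eq_three.1 h
      exact ⟨a, c, d, a.2.le, c.2.le, d.2.le, fun j => by
        rw [mem_insert, mem_insert, mem_singleton, Fin.ext_iff, Fin.ext_iff, Fin.ext_iff]⟩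
  set N := n + 1 with hN
  have hN0 : 0 < N := by omega
  set q := (x * N + y) * N + w with hq
  have q1 : q % N = w := by rw [hq, mul_comm, Nat.mul_add_mod, Nat.mod_eq_of_lt (by omega)]
  have q2 : q / N = x * N + y := by
    rw [hq, mul_comm, Nat.mul_add_div hN0, Nat.div_eq_of_lt (by omega), add_zero]
  have q3 : (x * N + y) % N = y := by
    rw [mul_comm, Nat.mul_add_mod, Nat.mod_eq_of_lt (by omega)]
  have q4 : (x * N + y) / N = x := by
    rw [mul_comm, Nat.mul_add_div hN0, Nat.div_eq_of_lt (by omega), add_zero]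
  have q5 : q < N ^ 3 := by
    have h1 : x * N + y < N * N := by nlinarith
    calc q < (x * N + y) * N + N := by omega
      _ = (x * N + y + 1) * N := by ring
      _ ≤ (N * N) * N := Nat.mul_le_mul_right _ h1
      _ = N ^ 3 := by ring
  refine ⟨2 * q + b.toNat, by cases b <;> simp <;> omega, ?_⟩
  have h2 : (2 * q + b.toNat) / 2 = q := by cases b <;> simp <;> omega
  have h3 : decide ((2 * q + b.toNat) % 2 = 1) = b := by
    cases b <;> simp
  unfold eqAt
  refine Prod.ext (Subtype.ext ?_) h3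
  ext j
  rw [mem_filter, h2, ← hN, q2, q1, q3, q4, h j]
  simp

/-- The number of unknowns, from the length of the word. -/
def nOf (L : ℕ) : ℕ := ((range L).filter fun m => 2 * (m + 2) ^ 3 ≤ L).card

lemma nOf_eq (n : ℕ) : nOf (2 * (n + 1) ^ 3) = n := by
  unfold nOf
  have : ((range (2 * (n + 1) ^ 3)).filter fun m => 2 * (m + 2) ^ 3 ≤ 2 * (n + 1) ^ 3) =
      range n := by
    ext m
    rw [mem_filter, mem_range, mem_range]
    constructor
    · rintro ⟨-, h⟩
      have h1 : m + 2 ≤ n + 1 := by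
        by_contra hc
        have : (n + 1) ^ 3 < (m + 2) ^ 3 := Nat.pow_lt_pow_left (by omega) (by norm_num)
        omega
      omega
    · intro h
      have h1 : (m + 2) ^ 3 ≤ (n + 1) ^ 3 := Nat.pow_le_pow_left (by omega) 3
      have h2 : m + 2 ≤ (m + 2) ^ 3 := Nat.le_self_pow (by norm_num) _
      exact ⟨by omega, by omega⟩
  rw [this, card_range]

/-- The matrix of the system. -/
def mat (y : List Bool) (r c : ℕ) : Bool :=
  decide (y.getD r false = true ∧ ((c = 0 ∧ r % 2 = 1) ∨ ((1 ≤ c ∧ c ≤ nOf y.length) ∧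
    (c = r / 2 / (nOf y.length + 1) / (nOf y.length + 1) + 1 ∨
      c = r / 2 / (nOf y.length + 1) % (nOf y.length + 1) + 1 ∨
      c = r / 2 % (nOf y.length + 1) + 1))))

lemma pf_nOf {α : Type} [Ctx α] : PF (fun (y : List Bool) (_ : α) => nOf y.length) := by
  have h := PF.count (α := α) (B := fun y _ => y.length)
    (P := fun y (p : α × ℕ) => 2 * (p.2 + 2) ^ 3 ≤ y.length) PF.len
    (PD.le ((PF.const 2).mul ((PF.snd.add (PF.const 2)).pow 3)) PF.len)
  exact h.congr fun y a => rfl

lemma pd_mat : PD (fun y (p : (Unit × ℕ) × ℕ) => mat y p.1.2 p.2 = true) := by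
  have hr : PF (fun (_ : List Bool) (p : (Unit × ℕ) × ℕ) => p.1.2) := PF.snd.fst
  have hc : PF (fun (_ : List Bool) (p : (Unit × ℕ) × ℕ) => p.2) := PF.snd
  have hn : PF (fun (y : List Bool) (_ : (Unit × ℕ) × ℕ) => nOf y.length) := pf_nOf
  have hn1 := hn.add (PF.const 1)
  have hq := hr.div (PF.const 2)
  refine ((PD.bit hr).and (((PD.eq hc (PF.const 0)).and (PD.eq (hr.mod (PF.const 2))
    (PF.const 1))).or (((PD.le (PF.const 1) hc).and (PD.le hc hn)).and
    ((PD.eq hc (((hq.div hn1).div hn1).add (PF.const 1))).or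
      ((PD.eq hc (((hq.div hn1).mod hn1).add (PF.const 1))).or
        (PD.eq hc ((hq.mod hn1).add (PF.const 1)))))))).congr fun y p => ?_
  unfold mat
  rw [decide_eq_true_iff]

/-- The rows of the system. -/
noncomputable def rowv {n : ℕ} (z : Eq3 n → Bool) (r : ℕ) : (Fin n → ZMod 2) × ZMod 2 :=
  if z (eqAt n r) = true then Sharp.ev (eqAt n r) else 0

lemma unsat_iff_comb {n : ℕ} (z : Eq3 n → Bool) : unsat z = true ↔
    ∃ w : ℕ → ZMod 2, ∑ r ∈ range (2 * (n + 1) ^ 3), w r • rowv z r = Sharp.bad n := by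
  classical
  rw [Sharp.unsat_iff]
  constructor
  · intro h
    have h1 : Sharp.ev '' {e | z e = true} ⊆
        Set.range fun i : Fin (2 * (n + 1) ^ 3) => rowv z i := by
      rintro _ ⟨e, he, rfl⟩
      obtain ⟨i, hi, rfl⟩ := eqAt_surj n e
      refine ⟨⟨i, hi⟩, ?_⟩
      show rowv z i = _
      unfold rowv
      exact if_pos he
    have h2 := Submodule.span_mono h1 h
    rw [Submodule.mem_span_range_iff_exists_fun] at h2
    obtain ⟨c, hc⟩ := h2
    refine ⟨fun r => if hr : r < 2 * (n + 1) ^ 3 then c ⟨r, hr⟩ else 0, ?_⟩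
    rw [← hc, ← Fin.sum_univ_eq_sum_range
      (fun r => (if hr : r < 2 * (n + 1) ^ 3 then c ⟨r, hr⟩ else 0) • rowv z r)]
    refine Finset.sum_congr rfl fun i _ => ?_
    rw [dif_pos i.2]
  · rintro ⟨w, hw⟩
    rw [← hw]
    refine Submodule.sum_mem _ fun r _ => Submodule.smul_mem _ _ ?_
    unfold rowv
    split_ifs with h
    · exact Submodule.subset_span ⟨_, h, rfl⟩
    · exact Submodule.zero_mem _

lemma length_enc {n : ℕ} (z : Eq3 n → Bool) : (enc z).length = 2 * (n + 1) ^ 3 := by
  unfold enc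
  rw [List.length_map, List.length_range]

lemma getD_enc {n : ℕ} (z : Eq3 n → Bool) {r : ℕ} (hr : r < 2 * (n + 1) ^ 3) :
    (enc z).getD r false = z (eqAt n r) := by
  unfold enc
  rw [List.getD_eq_getElem _ _ (by rw [List.length_map, List.length_range]; exact hr),
    List.getElem_map, List.getElem_range]

lemma getD_enc_len {n : ℕ} (z : Eq3 n → Bool) : (enc z).getD (2 * (n + 1) ^ 3) false = false :=
  List.getD_eq_default _ _ (by rw [length_enc])

lemma mat_zero {n : ℕ} (z : Eq3 n → Bool) {r : ℕ} (hr : r < 2 * (n + 1) ^ 3) :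
    bz (mat (enc z) r 0) = (rowv z r).2 := by
  unfold mat rowv
  rw [getD_enc z hr]
  by_cases h : z (eqAt n r) = true
  · rw [if_pos h]
    have h1 : (Sharp.ev (eqAt n r)).2 = if decide (r % 2 = 1) = true then 1 else 0 := rfl
    rw [h1]
    by_cases h2 : r % 2 = 1
    · simp [h, h2, bz]
    · simp [h2, bz]
  · rw [if_neg h]
    simp [h, bz]

lemma mat_succ {n : ℕ} (z : Eq3 n → Bool) {r : ℕ} (hr : r < 2 * (n + 1) ^ 3) (j : Fin n) :
    bz (mat (enc z) r (j + 1)) = (rowv z r).1 j := by
  unfold mat rowv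
  rw [getD_enc z hr, length_enc, nOf_eq]
  have hj : (j : ℕ) + 1 ≤ n := j.2
  by_cases h : z (eqAt n r) = true
  · rw [if_pos h]
    have h1 : (Sharp.ev (eqAt n r)).1 j = if j ∈ (eqAt n r).1.1 then 1 else 0 := rfl
    have h2 : j ∈ (eqAt n r).1.1 ↔ ((j : ℕ) = r / 2 / (n + 1) / (n + 1) ∨
      (j : ℕ) = r / 2 / (n + 1) % (n + 1) ∨ (j : ℕ) = r / 2 % (n + 1)) := by
      unfold eqAt
      rw [mem_filter]
      simp
    rw [h1]
    unfold bz
    by_cases h3 : j ∈ (eqAt n r).1.1
    · rw [if_pos h3, if_pos]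
      rw [decide_eq_true_iff]
      refine ⟨h, Or.inr ⟨⟨by omega, hj⟩, ?_⟩⟩
      have := h2.1 h3
      omega
    · rw [if_neg h3, if_neg]
      rw [decide_eq_true_iff]
      rintro ⟨-, ⟨h4, -⟩ | ⟨-, h4⟩⟩
      · omega
      · exact h3 (h2.2 (by omega))
  · rw [if_neg h]
    simp [h, bz]

lemma mat_far {n : ℕ} (z : Eq3 n → Bool) {r c : ℕ} (hc : n < c) :
    bz (mat (enc z) r c) = 0 := by
  unfold mat
  rw [length_enc, nOf_eq]
  unfold bz
  rw [if_neg]
  rw [decide_eq_true_iff]
  rintro ⟨-, ⟨h4, -⟩ | ⟨⟨-, h4⟩, -⟩⟩ <;> omega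

lemma mat_last {n : ℕ} (z : Eq3 n → Bool) (c : ℕ) :
    bz (mat (enc z) (2 * (n + 1) ^ 3) c) = 0 := by
  unfold mat
  rw [getD_enc_len]
  simp [bz]

lemma inc_iff {n : ℕ} (z : Eq3 n → Bool) :
    Inc ((enc z).length + 1) (mat (enc z)) ↔ unsat z = true := by
  rw [unsat_iff_comb, length_enc]
  unfold Inc
  refine exists_congr fun w => ?_
  have hs : ∀ c, ∑ r ∈ range (2 * (n + 1) ^ 3 + 1), w r * bz (mat (enc z) r c) =
      ∑ r ∈ range (2 * (n + 1) ^ 3), w r * bz (mat (enc z) r c) := by
    intro c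
    rw [sum_range_succ, mat_last, mul_zero, add_zero]
  have h0 : ∑ r ∈ range (2 * (n + 1) ^ 3), w r * bz (mat (enc z) r 0) =
      (∑ r ∈ range (2 * (n + 1) ^ 3), w r • rowv z r).2 := by
    rw [Prod.snd_sum]
    refine Finset.sum_congr rfl fun r hr => ?_
    rw [mat_zero z (mem_range.1 hr)]
    rfl
  have h1 : ∀ j : Fin n, ∑ r ∈ range (2 * (n + 1) ^ 3), w r * bz (mat (enc z) r (j + 1)) =
      (∑ r ∈ range (2 * (n + 1) ^ 3), w r • rowv z r).1 j := by
    intro j
    rw [Prod.fst_sum, Finset.sum_apply]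
    refine Finset.sum_congr rfl fun r hr => ?_
    rw [mat_succ z (mem_range.1 hr)]
    rfl
  have hn : n + 1 ≤ 2 * (n + 1) ^ 3 := by
    have : n + 1 ≤ (n + 1) ^ 3 := Nat.le_self_pow (by norm_num) _
    omega
  constructor
  · intro h
    refine Prod.ext ?_ ?_
    · funext j
      have h2 := h (j + 1) (by have := j.2; omega)
      rw [hs, h1, if_neg (by omega)] at h2
      rw [h2]
      rfl
    · have h2 := h 0 (by omega)
      rw [hs, h0, if_pos rfl] at h2
      rw [h2]
      rfl
  · intro h c hc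
    rw [hs]
    rcases Nat.eq_zero_or_pos c with rfl | hc0
    · rw [h0, h, if_pos rfl]
      rfl
    · rw [if_neg (by omega)]
      by_cases hcn : c ≤ n
      · have h2 := h1 ⟨c - 1, by omega⟩
        have h3 : ((⟨c - 1, by omega⟩ : Fin n) : ℕ) + 1 = c := by
          show c - 1 + 1 = c
          omega
        rw [h3, h] at h2
        rw [h2]
        rfl
      · refine Finset.sum_eq_zero fun r _ => ?_
        rw [mat_far z (by omega), mul_zero]

open Classical in
/-- **Inconsistency of systems of linear equations over the field with two elements, at most three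
unknowns in each, is decided in polynomial time.** -/
theorem unsat_polyTime : ∃ L : List Bool → Bool,
    Nonempty (TM2ComputableInPolyTime (id : List Bool → List Bool)
      (id : List Bool → List Bool) fun y => [L y]) ∧
    ∀ (n : ℕ) (z : Eq3 n → Bool), L (enc z) = unsat z := by
  refine ⟨fun y => decide (Inc (y.length + 1) (mat y)), ?_, fun n z => ?_⟩
  · exact gauss_polyTime (D := fun y => y.length + 1) (E := mat) (PF.len.add (PF.const 1)) pd_mat
      fun y => Nat.succ_pos _
  · rw [Bool.eq_iff_iff, decide_eq_true_iff]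
    exact inc_iff z

end Pool.Agent.GE
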